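import Pool.Agent.H63.VC.Cross
import Pool.Agent.H63.VC.EndB
import Pool.Agent.H63.VC.Riem
import Pool.Agent.H63.VC.SlowL
import Pool.Agent.H63.VC.SlowU
import Pool.Agent.H63.VC11.Brac11
import Pool.Agent.H63.VC12.Path12
import Pool.Agent.H63.VC4.Checks
import Pool.Agent.H63.VC4.GeoDefs
import Pool.Agent.S4.Defs

/-! # Sums over the channels of a tree -/

set_option autoImplicit false

namespace Pool.Agent.OR

open Pool.Agent.H63.VC7 Pool.Agent.H63.VC8 Pool.Agent.H63.VC11 Pool.Agent.H63.VC12 Pool.Agent.S4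

variable {m : ℕ}

/-- The sum over the channels of the nodes, with the weights `w i` of the nodes and the Racah matrices
of the edges. -/
noncomputable def TS (n : ℕ) (q : ℂ) (N : ℕ) (a : ℤ) (par : Fin m → Fin (m + 1))
    (P : Fin (m + 1) → Bool) (w : Fin (m + 1) → ℕ → ℂ) : ℂ :=
  ∑ X ∈ Fintype.piFinset (fun _ : Fin (m + 1) => Finset.range (N + 1)),
    (∏ i, w i (X i)) *
      ∏ j : Fin m, ker n q N a (P (par j)) (P j.succ) (X (par j)) (X j.succ)

/-- The sum over the channels of a tree. -/
noncomputable def mixT (n : ℕ) (q : ℂ) (N : ℕ) (a : ℤ) (par : Fin m → Fin (m + 1))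
    (P : Fin (m + 1) → Bool) (b : Fin (m + 1) → ℤ) : ℂ :=
  ∑ X ∈ Fintype.piFinset (fun _ : Fin (m + 1) => Finset.range (N + 1)),
    (∏ i, vw n q N (P i) (b i) (X i)) *
      ∏ j : Fin m, ker n q N a (P (par j)) (P j.succ) (X (par j)) (X j.succ)

theorem mixT_TS (n : ℕ) (q : ℂ) (N : ℕ) (a : ℤ) (par : Fin m → Fin (m + 1))
    (P : Fin (m + 1) → Bool) (b : Fin (m + 1) → ℤ) :
    mixT n q N a par P b = TS n q N a par P fun i => vw n q N (P i) (b i) := rfl

/-- The sum with the channel of the node `s` fixed, without the weight of this node. -/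
noncomputable def Bs (n : ℕ) (q : ℂ) (N : ℕ) (a : ℤ) (par : Fin m → Fin (m + 1))
    (P : Fin (m + 1) → Bool) (w : Fin (m + 1) → ℕ → ℂ) (s : Fin (m + 1)) (Y : ℕ) : ℂ :=
  TS n q N a par P (Function.update w s fun X => if X = Y then 1 else 0)

theorem TS_congr {n : ℕ} {q : ℂ} {N : ℕ} {a : ℤ} {par : Fin m → Fin (m + 1)}
    {P : Fin (m + 1) → Bool} {w w' : Fin (m + 1) → ℕ → ℂ}
    (h : ∀ i, ∀ X ≤ N, w i X = w' i X) : TS n q N a par P w = TS n q N a par P w' := by
  unfold TS
  refine Finset.sum_congr rfl fun X hX => ?_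
  rw [Fintype.mem_piFinset] at hX
  congr 1
  exact Finset.prod_congr rfl fun i _ => h i _ (Nat.lt_succ_iff.1 (Finset.mem_range.1 (hX i)))

theorem prod_update (w : Fin (m + 1) → ℕ → ℂ) (s : Fin (m + 1)) (f : ℕ → ℂ)
    (X : Fin (m + 1) → ℕ) : ∏ i, Function.update w s f i (X i) =
      f (X s) * ∏ i ∈ Finset.univ.erase s, w i (X i) := by
  rw [← Finset.mul_prod_erase _ _ (Finset.mem_univ s), Function.update_self]
  congr 1
  refine Finset.prod_congr rfl fun i hi => ?_
  rw [Function.update_of_ne (Finset.ne_of_mem_erase hi)]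

/-- The sum is linear in the weight of a node. -/
theorem TS_update (n : ℕ) (q : ℂ) (N : ℕ) (a : ℤ) (par : Fin m → Fin (m + 1))
    (P : Fin (m + 1) → Bool) (w : Fin (m + 1) → ℕ → ℂ) (s : Fin (m + 1)) (f : ℕ → ℂ) :
    TS n q N a par P (Function.update w s f) =
      ∑ Y ∈ Finset.range (N + 1), f Y * Bs n q N a par P w s Y := by
  unfold Bs TS
  simp only [prod_update, Finset.mul_sum]
  rw [Finset.sum_comm]
  refine Finset.sum_congr rfl fun X hX => ?_
  rw [Fintype.mem_piFinset] at hX
  rw [Finset.sum_eq_single_of_mem (X s) (hX s)]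
  · rw [if_pos rfl]
    ring
  · intro Y _ hY
    rw [if_neg (Ne.symm hY)]
    ring

theorem Bs_congr {n : ℕ} {q : ℂ} {N : ℕ} {a : ℤ} {par : Fin m → Fin (m + 1)}
    {P : Fin (m + 1) → Bool} {w w' : Fin (m + 1) → ℕ → ℂ} {s : Fin (m + 1)}
    (h : ∀ i, i ≠ s → ∀ X ≤ N, w i X = w' i X) (Y : ℕ) :
    Bs n q N a par P w s Y = Bs n q N a par P w' s Y := by
  unfold Bs
  refine TS_congr fun i X hX => ?_
  by_cases hi : i = s
  · subst hi
    rw [Function.update_self, Function.update_self]
  · rw [Function.update_of_ne hi, Function.update_of_ne hi]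
    exact h i hi X hX

/-! ### Removing the last node, a leaf -/

/-- The tree without the last node. -/
def parI (par : Fin (m + 1) → Fin (m + 2)) (hpar : ∀ j, par j ≤ j.castSucc) (j : Fin m) :
    Fin (m + 1) :=
  (par j.castSucc).castLT (lt_of_le_of_lt (Fin.le_def.1 (hpar j.castSucc)) (by
    have := j.2
    simp only [Fin.val_castSucc]
    omega))

/-- The neighbour of the last node. -/
def parL (par : Fin (m + 1) → Fin (m + 2)) (hpar : ∀ j, par j ≤ j.castSucc) : Fin (m + 1) :=
  (par (Fin.last m)).castLT (lt_of_le_of_lt (Fin.le_def.1 (hpar (Fin.last m))) (by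
    simp only [Fin.val_castSucc, Fin.val_last]
    omega))

theorem castSucc_parI (par : Fin (m + 1) → Fin (m + 2)) (hpar : ∀ j, par j ≤ j.castSucc)
    (j : Fin m) : (parI par hpar j).castSucc = par j.castSucc := Fin.castSucc_castLT _ _

theorem castSucc_parL (par : Fin (m + 1) → Fin (m + 2)) (hpar : ∀ j, par j ≤ j.castSucc) :
    (parL par hpar).castSucc = par (Fin.last m) := Fin.castSucc_castLT _ _

theorem parI_le (par : Fin (m + 1) → Fin (m + 2)) (hpar : ∀ j, par j ≤ j.castSucc) (j : Fin m) :
    parI par hpar j ≤ j.castSucc := by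
  have h := hpar j.castSucc
  rw [← castSucc_parI par hpar j] at h
  rw [Fin.le_def] at h ⊢
  exact h

private theorem sum_snoc (s : Finset ℕ) (m : ℕ) (F : (Fin (m + 1) → ℕ) → ℂ) :
    ∑ X ∈ Fintype.piFinset (fun _ : Fin (m + 1) => s), F X =
      ∑ Y ∈ Fintype.piFinset (fun _ : Fin m => s), ∑ Z ∈ s,
        F (Fin.snoc (α := fun _ => ℕ) Y Z) := by
  rw [Finset.sum_comm, ← Finset.sum_product' s (Fintype.piFinset (fun _ : Fin m => s))
    (fun Z Y => F (Fin.snoc (α := fun _ => ℕ) Y Z))]
  refine Finset.sum_equiv (Fin.snocEquiv (fun _ : Fin (m + 1) => ℕ)).symm (fun X => ?_)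
    (fun X _ => ?_)
  · simp only [Fintype.mem_piFinset, Finset.mem_product, Fin.forall_fin_succ']
    exact and_comm
  · show F X = F (Fin.snoc (α := fun _ => ℕ) (Fin.init X) (X (Fin.last m)))
    rw [Fin.snoc_init_self]

/-- The transform of the weight of a leaf. -/
noncomputable def TL (n : ℕ) (q : ℂ) (N : ℕ) (a : ℤ) (P P' : Bool) (w : ℕ → ℂ) (X : ℕ) : ℂ :=
  ∑ Z ∈ Finset.range (N + 1), ker n q N a P P' X Z * w Z

theorem TS_succ (n : ℕ) (q : ℂ) (N : ℕ) (a : ℤ) (par : Fin (m + 1) → Fin (m + 2))
    (hpar : ∀ j, par j ≤ j.castSucc) (P : Fin (m + 2) → Bool) (w : Fin (m + 2) → ℕ → ℂ) :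
    TS n q N a par P w = TS n q N a (parI par hpar) (fun i => P i.castSucc)
      (fun i X => w i.castSucc X * (if i = parL par hpar then
        TL n q N a (P (parL par hpar).castSucc) (P (Fin.last (m + 1))) (w (Fin.last (m + 1))) X
        else 1)) := by
  unfold TS
  rw [sum_snoc]
  refine Finset.sum_congr rfl fun X _ => ?_
  have h1 : ∏ i : Fin (m + 1), w i.castSucc (X i) * (if i = parL par hpar then
        TL n q N a (P (parL par hpar).castSucc) (P (Fin.last (m + 1))) (w (Fin.last (m + 1))) (X i)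
        else 1) = (∏ i : Fin (m + 1), w i.castSucc (X i)) *
        TL n q N a (P (parL par hpar).castSucc) (P (Fin.last (m + 1))) (w (Fin.last (m + 1)))
          (X (parL par hpar)) := by
    rw [Finset.prod_mul_distrib, Finset.prod_ite_eq' Finset.univ (parL par hpar),
      if_pos (Finset.mem_univ _)]
  beta_reduce
  rw [h1]
  unfold TL
  rw [Finset.mul_sum, Finset.sum_mul]
  refine Finset.sum_congr rfl fun Z _ => ?_
  rw [Fin.prod_univ_castSucc, Fin.prod_univ_castSucc (n := m) (fun j => ker n q N a (P (par j))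
    (P j.succ) (Fin.snoc (α := fun _ => ℕ) X Z (par j)) (Fin.snoc (α := fun _ => ℕ) X Z j.succ))]
  have h2 : ∀ j : Fin m, ker n q N a (P (par j.castSucc)) (P j.castSucc.succ)
      (Fin.snoc (α := fun _ => ℕ) X Z (par j.castSucc))
      (Fin.snoc (α := fun _ => ℕ) X Z j.castSucc.succ) =
      ker n q N a (P (parI par hpar j).castSucc) (P j.succ.castSucc) (X (parI par hpar j))
        (X j.succ) := by
    intro j
    rw [← castSucc_parI par hpar j, Fin.succ_castSucc, Fin.snoc_castSucc, Fin.snoc_castSucc]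
  have h3 : ∏ i : Fin (m + 1), w i.castSucc (Fin.snoc (α := fun _ => ℕ) X Z i.castSucc) =
      ∏ i : Fin (m + 1), w i.castSucc (X i) :=
    Finset.prod_congr rfl fun i _ => by rw [Fin.snoc_castSucc]
  rw [Finset.prod_congr rfl fun j _ => h2 j, h3, ← castSucc_parL par hpar, Fin.succ_last,
    Fin.snoc_last, Fin.snoc_castSucc]
  ring

/-- The sum with a fixed channel, for a node which is not the last one. -/
theorem Bs_castSucc (n : ℕ) (q : ℂ) (N : ℕ) (a : ℤ) (par : Fin (m + 1) → Fin (m + 2))
    (hpar : ∀ j, par j ≤ j.castSucc) (P : Fin (m + 2) → Bool) (w : Fin (m + 2) → ℕ → ℂ)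
    (s : Fin (m + 1)) (Y : ℕ) :
    Bs n q N a par P w s.castSucc Y = Bs n q N a (parI par hpar) (fun i => P i.castSucc)
      (fun i X => w i.castSucc X * (if i = parL par hpar then
        TL n q N a (P (parL par hpar).castSucc) (P (Fin.last (m + 1))) (w (Fin.last (m + 1))) X
        else 1)) s Y * (if s = parL par hpar then
        TL n q N a (P (parL par hpar).castSucc) (P (Fin.last (m + 1))) (w (Fin.last (m + 1))) Y
        else 1) := by
  set T : ℕ → ℂ := TL n q N a (P (parL par hpar).castSucc) (P (Fin.last (m + 1)))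
    (w (Fin.last (m + 1))) with hT
  set w' : Fin (m + 1) → ℕ → ℂ := fun i X => w i.castSucc X *
    (if i = parL par hpar then T X else 1) with hw'
  have hl : Function.update w s.castSucc (fun X => if X = Y then 1 else 0) (Fin.last (m + 1)) =
      w (Fin.last (m + 1)) :=
    Function.update_of_ne (Fin.castSucc_lt_last s).ne' _ _
  have h1 : Bs n q N a par P w s.castSucc Y = TS n q N a (parI par hpar)
      (fun i => P i.castSucc) (Function.update w' s fun X =>
        (if X = Y then 1 else 0) * (if s = parL par hpar then T X else 1)) := by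
    unfold Bs
    rw [TS_succ n q N a par hpar P, hl, ← hT]
    congr 1
    funext i X
    by_cases hi : i = s
    · subst hi
      rw [Function.update_self, Function.update_self]
    · rw [Function.update_of_ne hi, Function.update_of_ne (by
        intro h
        exact hi (Fin.castSucc_injective _ h))]
  have h2 : Bs n q N a (parI par hpar) (fun i => P i.castSucc) w' s Y =
      TS n q N a (parI par hpar) (fun i => P i.castSucc) (Function.update w' s fun X =>
        (if X = Y then 1 else 0)) := rfl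
  rw [h1, h2, TS_update, TS_update, Finset.sum_mul]
  refine Finset.sum_congr rfl fun X _ => ?_
  by_cases hX : X = Y
  · subst hX
    ring
  · rw [if_neg hX]
    ring

/-- The sum with a fixed channel of the last node. -/
theorem Bs_last (n : ℕ) (q : ℂ) (N : ℕ) (a : ℤ) (par : Fin (m + 1) → Fin (m + 2))
    (hpar : ∀ j, par j ≤ j.castSucc) (P : Fin (m + 2) → Bool) (w : Fin (m + 2) → ℕ → ℂ)
    {Y : ℕ} (hY : Y ≤ N) :
    Bs n q N a par P w (Fin.last (m + 1)) Y = ∑ X ∈ Finset.range (N + 1),
      ker n q N a (P (parL par hpar).castSucc) (P (Fin.last (m + 1))) X Y *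
        (w (parL par hpar).castSucc X * Bs n q N a (parI par hpar) (fun i => P i.castSucc)
          (fun i => w i.castSucc) (parL par hpar) X) := by
  have hT : TL n q N a (P (parL par hpar).castSucc) (P (Fin.last (m + 1)))
      (fun X => if X = Y then 1 else 0) =
      fun X => ker n q N a (P (parL par hpar).castSucc) (P (Fin.last (m + 1))) X Y := by
    funext X
    unfold TL
    rw [Finset.sum_eq_single_of_mem Y (Finset.mem_range.2 (by omega))]
    · beta_reduce
      rw [if_pos rfl, mul_one]
    · intro Z _ hZ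
      beta_reduce
      rw [if_neg hZ, mul_zero]
  have h1 : Bs n q N a par P w (Fin.last (m + 1)) Y = TS n q N a (parI par hpar)
      (fun i => P i.castSucc) (Function.update (fun i => w i.castSucc) (parL par hpar) fun X =>
        w (parL par hpar).castSucc X *
          ker n q N a (P (parL par hpar).castSucc) (P (Fin.last (m + 1))) X Y) := by
    unfold Bs
    rw [TS_succ n q N a par hpar P, Function.update_self, hT]
    congr 1
    funext i X
    rw [Function.update_of_ne (Fin.castSucc_lt_last i).ne]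
    by_cases hi : i = parL par hpar
    · subst hi
      rw [Function.update_self, if_pos rfl]
    · rw [Function.update_of_ne hi, if_neg hi, mul_one]
  rw [h1, TS_update]
  exact Finset.sum_congr rfl fun X _ => by ring

end Pool.Agent.OR
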