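import Pool.Agent.OR.R.RS
import Pool.Agent.S4.B.Hex
import Pool.Agent.S4.B.Orth
import Pool.Agent.S4.R.RL
import Pool.Agent.S4.R.RP

/-! # The transforms between the classes for parallel and for antiparallel strands -/

set_option autoImplicit false

namespace Pool.Agent.OR

open Pool.Agent.H63.VC hiding ext
open Pool.Agent.H63.VC3 Pool.Agent.H63.VC7 Pool.Agent.H63.VC8 Pool.Agent.H63.VC11
open Pool.Agent.H63.VC12 Pool.Agent.S4 Complex Filter Topology

variable {n N g : ℕ} {x : ℂ} {F G : ℂ → ℕ → ℂ} {a : ℤ}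

theorem Ro_sum {q : ℂ} {ι : Type*} (s : Finset ι) (c : ι → ℂ) (F : ι → ℕ → ℂ) (l : ℕ) :
    Ro n q N a (fun j => ∑ i ∈ s, c i * F i j) l = ∑ i ∈ s, c i * Ro n q N a (F i) l := by
  simp only [Ro, Finset.mul_sum]
  rw [Finset.sum_comm]
  refine Finset.sum_congr rfl fun i _ => Finset.sum_congr rfl fun Y _ => ?_
  ring

theorem Ro_congr {q : ℂ} {f g : ℕ → ℂ} (h : ∀ j ≤ N, f j = g j) (l : ℕ) :
    Ro n q N a f l = Ro n q N a g l := by
  simp only [Ro]
  refine Finset.sum_congr rfl fun Y hY => ?_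
  rw [h Y (Nat.lt_succ_iff.1 (Finset.mem_range.1 hY))]

theorem Rt_sum {q : ℂ} {ι : Type*} (s : Finset ι) (c : ι → ℂ) (F : ι → ℕ → ℂ) (l : ℕ) :
    Rt n q N a (fun j => ∑ i ∈ s, c i * F i j) l = ∑ i ∈ s, c i * Rt n q N a (F i) l := by
  simp only [Rt, Finset.mul_sum]
  rw [Finset.sum_comm]
  refine Finset.sum_congr rfl fun i _ => Finset.sum_congr rfl fun Y _ => ?_
  ring

theorem Rt_congr {q : ℂ} {f g : ℕ → ℂ} (h : ∀ j ≤ N, f j = g j) (l : ℕ) :
    Rt n q N a f l = Rt n q N a g l := by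
  simp only [Rt]
  refine Finset.sum_congr rfl fun Y hY => ?_
  rw [h Y (Nat.lt_succ_iff.1 (Finset.mem_range.1 hY))]

theorem Ro_LE {q : ℂ} (hg : Gen q n N) (hn : 2 ≤ n) (ha : IsA n N a) {k l : ℕ} (hk : k ≤ N)
    (hl : l ≤ N) : Ro n q N a (LE q k) l = wk q n N k l := by
  rcases ha with rfl | rfl
  · exact k1p hg hn hk hl
  · exact k1m hg hn hk hl

/-- The transforms are inverse to each other. -/
theorem Rt_Ro {q : ℂ} (hg : Gen q n N) (hn : 2 ≤ n) (ha : IsA n N a) (f : ℕ → ℂ) {j : ℕ}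
    (hj : j ≤ N) : Rt n q N a (Ro n q N a f) j = f j := by
  let A : Matrix (Fin (N + 1)) (Fin (N + 1)) ℂ := fun l j =>
    dimT n N q j / dimS n N q * six n q N a j l
  let B : Matrix (Fin (N + 1)) (Fin (N + 1)) ℂ := fun j l =>
    dimA n q l / dimS n N q * six n q N a j l
  have h1 : A * B = 1 := by
    ext l m
    have h := Ro_Rt hg hn ha (fun Y => if Y = (m : ℕ) then 1 else 0) (l := l)
      (Nat.lt_succ_iff.1 l.2)
    unfold Ro Rt at h
    have e1 : ∀ j : ℕ, ∑ l' ∈ Finset.range (N + 1), dimA n q l' / dimS n N q *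
        six n q N a j l' * (if l' = (m : ℕ) then 1 else 0) =
        dimA n q m / dimS n N q * six n q N a j m := by
      intro j
      rw [Finset.sum_eq_single_of_mem (m : ℕ) (Finset.mem_range.2 m.2)]
      · simp
      · intro b _ hb
        simp [hb]
    simp only [e1] at h
    rw [Matrix.mul_apply, Matrix.one_apply]
    rw [Finset.sum_range] at h
    refine h.trans ?_
    simp only [Fin.ext_iff]
  have h2 : B * A = 1 := mul_eq_one_comm.1 h1
  unfold Rt Ro
  rw [Finset.sum_range]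
  simp only [Finset.sum_range (fun i => _ * f i), Finset.mul_sum]
  rw [Finset.sum_comm]
  have h3 : ∀ i : Fin (N + 1), ∑ l : Fin (N + 1), dimA n q l / dimS n N q * six n q N a j l *
      (dimT n N q i / dimS n N q * six n q N a i l * f i) =
      (B * A) ⟨j, Nat.lt_succ_iff.2 hj⟩ i * f i := by
    intro i
    rw [Matrix.mul_apply, Finset.sum_mul]
    refine Finset.sum_congr rfl fun l _ => ?_
    show _ = dimA n q l / dimS n N q * six n q N a j l *
      (dimT n N q i / dimS n N q * six n q N a i l) * f i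
    ring
  rw [Finset.sum_congr rfl fun i _ => h3 i, h2]
  rw [Finset.sum_eq_single_of_mem (⟨j, Nat.lt_succ_iff.2 hj⟩ : Fin (N + 1))
    (Finset.mem_univ _)]
  · simp
  · intro b _ hb
    rw [Matrix.one_apply_ne (Ne.symm hb), zero_mul]

theorem twA_ne {q : ℂ} (hq : q ≠ 0) (n X : ℕ) : twA q n X ≠ 0 :=
  mul_ne_zero (pow_ne_zero _ (by norm_num)) (zpow_ne_zero _ hq)

theorem twS_ne {q : ℂ} (hq : q ≠ 0) (X : ℕ) : twS q X ≠ 0 :=
  mul_ne_zero (pow_ne_zero _ (by norm_num)) (zpow_ne_zero _ hq)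

theorem ka_ne {q : ℂ} (hq : q ≠ 0) (n N : ℕ) : ka q n N ≠ 0 :=
  mul_ne_zero (pow_ne_zero _ (by norm_num)) (zpow_ne_zero _ hq)

theorem zp_cont (hx : x ≠ 0) (e : ℤ) : ContinuousAt (fun q : ℂ => q ^ e) x :=
  continuousAt_zpow₀ x _ (Or.inl hx)

theorem twA_cont (hx : x ≠ 0) (n X : ℕ) (c : ℤ) : ContinuousAt (fun q => twA q n X ^ c) x := by
  refine ContinuousAt.zpow₀ ?_ c (Or.inl (twA_ne hx n X))
  unfold twA
  exact continuousAt_const.mul (continuousAt_id.zpow₀ _ (Or.inl hx))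

theorem ka_cont (hx : x ≠ 0) (n N : ℕ) (c : ℤ) : ContinuousAt (fun q => ka q n N ^ c) x := by
  refine ContinuousAt.zpow₀ ?_ c (Or.inl (ka_ne hx n N))
  unfold ka
  exact continuousAt_const.mul (continuousAt_id.zpow₀ _ (Or.inl hx))

/-- The basis `EE` in terms of the transforms of the basis functions `LE`. -/
theorem EE_wk (hn : 2 ≤ n) (hx : x ≠ 0) {ε : ℤ} (hε : ε = 1 ∨ ε = -1) (k : ℕ) (hk : k ≤ N) :
    Sp N x (fun q k X => twA q n X ^ ε * wk q n N k X) fun q X => EE q n N (N - k) X := by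
  induction k using Nat.strong_induction_on with
  | _ k ih =>
    let E : ℕ → ℤ := fun i => ε * (((N : ℤ) - ((N - i : ℕ) : ℤ)) * (k + N + n - 1) - k * N)
    have h1 : Sp N x (fun q k X => twA q n X ^ ε * wk q n N k X) fun q X =>
        ∑ i ∈ Finset.range k, -(qb q (N - i) (N - k) * q ^ E i) * EE q n N (N - i) X := by
      refine Sp.sum _ (fun i q => -(qb q (N - i) (N - k) * q ^ E i))
        (fun i q X => EE q n N (N - i) X) (fun i _ => ?_) (fun i hi => ?_)
      · exact R_RA_cb ((qb_cont hx _ _).mul (zp_cont hx _)).neg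
      · have := Finset.mem_range.1 hi
        exact ih i this (by omega)
    have h2 : Sp N x (fun q k X => twA q n X ^ ε * wk q n N k X) fun q X =>
        twA q n X ^ ε * wk q n N k X := Sp.basis hk
    refine ((h2.add h1).smul (a := fun q => q ^ (-E k)) (R_RA_cb (zp_cont hx _))).congr ?_
    filter_upwards [Ev11_gen x n N] with q hq X hX
    have h3 := twA_wk hq hn hε hk hX
    rw [← Finset.sum_range_reflect] at h3
    have h4 : ∑ i ∈ Finset.range (N + 1), qb q (N + 1 - 1 - i) (N - k) *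
        q ^ (ε * (((N : ℤ) - ((N + 1 - 1 - i : ℕ) : ℤ)) * (k + N + n - 1) - k * N)) *
          EE q n N (N + 1 - 1 - i) X =
        ∑ i ∈ Finset.range (k + 1), qb q (N - i) (N - k) * q ^ E i * EE q n N (N - i) X := by
      simp only [Nat.add_sub_cancel]
      symm
      refine Finset.sum_subset (Finset.range_subset_range.2 (by omega)) fun i hi hi' => ?_
      rw [Finset.mem_range] at hi hi'
      rw [qb_lt q (N - i) (N - k) (by omega), zero_mul, zero_mul]
    rw [h4, Finset.sum_range_succ, qb_self, one_mul] at h3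
    have h5 : q ^ (-E k) * q ^ E k = 1 := by
      rw [← zpow_add₀ hq.1, neg_add_cancel, zpow_zero]
    have h6 : ∑ i ∈ Finset.range k, -(qb q (N - i) (N - k) * q ^ E i) * EE q n N (N - i) X =
        -∑ i ∈ Finset.range k, qb q (N - i) (N - k) * q ^ E i * EE q n N (N - i) X := by
      rw [← Finset.sum_neg_distrib]
      exact Finset.sum_congr rfl fun i _ => by ring
    rw [h6]
    linear_combination (-q ^ (-E k)) * h3 - EE q n N (N - k) X * h5

/-- The class for antiparallel strands in terms of the transforms of the functions `LE`. -/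
theorem RA_wk (hn : 2 ≤ n) (hg : 1 ≤ g) {ε : ℤ} (hε : ε = 1 ∨ ε = -1) :
    RA n N (q0 (N + g)) F ↔
      Sp N (q0 (N + g)) (fun q k X => twA q n X ^ ε * wk q n N k X) F := by
  have hx := R_RA_q0_ne (N + g)
  constructor
  · intro h
    refine Sp.trans (fun t _ => ?_) (RA_Sp.1 h)
    have h1 : Sp N (q0 (N + g)) (fun q j X => EE q n N j X) fun q X => pa q n t X :=
      R_RP_pa hx hn t
    refine h1.trans fun j hj => ?_
    have h2 := EE_wk (N := N) hn hx hε (N - j) (Nat.sub_le _ _)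
    rwa [Nat.sub_sub_self hj] at h2
  · intro h
    refine RA_Sp.2 (h.trans fun k hk => ?_)
    have h1 : Sp N (q0 (N + g)) (fun q j X => EE q n N j X) fun q X =>
        twA q n X ^ ε * wk q n N k X := by
      refine ⟨fun q t => qb q t (N - k) *
        q ^ (ε * (((N : ℤ) - t) * (k + N + n - 1) - k * N)), fun t => ?_, ?_⟩
      · exact R_RA_cb ((qb_cont hx _ _).mul (zp_cont hx _))
      · filter_upwards [Ev11_gen (q0 (N + g)) n N] with q hq X hX
        exact twA_wk hq hn hε hk hX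
    exact h1.trans fun j hj => RA_Sp.1 (R_RP_EE hn hg j hj)

/-- The transform of a function of the channels of parallel strands. -/
theorem RS_Ro (hn : 2 ≤ n) (hg : 1 ≤ g) (ha : IsA n N a) {ε : ℤ} (hε : ε = 1 ∨ ε = -1)
    (h : RS N (q0 (N + g)) F) :
    RA n N (q0 (N + g)) fun q X => twA q n X ^ ε * Ro n q N a (F q) X := by
  rw [RA_wk hn hg hε]
  obtain ⟨c, hc, hF⟩ := h
  refine ⟨c, hc, ?_⟩
  filter_upwards [hF, Ev11_gen (q0 (N + g)) n N] with q h1 hq X hX
  rw [Ro_congr h1, Ro_sum, Finset.mul_sum]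
  refine Finset.sum_congr rfl fun k hk => ?_
  rw [Ro_LE hq hn ha (Nat.lt_succ_iff.1 (Finset.mem_range.1 hk)) hX]
  ring

/-- The transform of a function of the channels of antiparallel strands. -/
theorem RA_Rt (hn : 2 ≤ n) (hg : 1 ≤ g) (ha : IsA n N a) {ε : ℤ} (hε : ε = 1 ∨ ε = -1)
    (h : RA n N (q0 (N + g)) fun q X => twA q n X ^ ε * F q X) :
    RS N (q0 (N + g)) fun q j => Rt n q N a (F q) j := by
  rw [RA_wk hn hg hε] at h
  obtain ⟨c, hc, hF⟩ := h
  refine ⟨c, hc, ?_⟩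
  filter_upwards [hF, Ev11_gen (q0 (N + g)) n N] with q h1 hq j hj
  have h2 : ∀ X ≤ N, F q X = ∑ k ∈ Finset.range (N + 1), c q k * Ro n q N a (LE q k) X := by
    intro X hX
    have h3 := h1 X hX
    have h4 := zpow_ne_zero ε (twA_ne hq.1 n X)
    apply mul_left_cancel₀ h4
    rw [h3, Finset.mul_sum]
    refine Finset.sum_congr rfl fun k hk => ?_
    rw [Ro_LE hq hn ha (Nat.lt_succ_iff.1 (Finset.mem_range.1 hk)) hX]
    ring
  rw [Rt_congr h2, Rt_sum]
  refine Finset.sum_congr rfl fun k _ => ?_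
  rw [Rt_Ro hq hn ha _ hj]

/-- The same for the main channels. -/
theorem RA_RtL (hn : 2 ≤ n) (hg : 1 ≤ g) (hgn : g < n) (hN : n ≤ N) (ha : IsA n N a) {ε : ℤ}
    (hε : ε = 1 ∨ ε = -1) (h : RA n N (q0 (N + g)) fun q X => twA q n X ^ ε * F q X) :
    RS N (q0 (N + g)) fun q j =>
      Rt n q N a (fun Y => if N + g + 1 < n + Y then 0 else F q Y) j := by
  have hx := R_RA_q0_ne (N + g)
  have hε' : -ε = 1 ∨ -ε = -1 := by omega
  set H : ℂ → ℕ → ℂ := fun q Y => if N + g + 1 < n + Y then 0 else F q Y with hH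
  have h1 := RA.PhL hn hg hgn hN h
  have h2 : RA n N (q0 (N + g)) fun q X => twA q n X ^ (-ε) *
      Ro n q N a (fun j => twS q j ^ (-ε) * Rt n q N a (H q) j) X := by
    refine (R_RA_smul (a := fun q => ka q n N ^ (-ε)) (R_RA_cb (ka_cont hx n N _)) h1).congr ?_
    filter_upwards [Ev11_gen (q0 (N + g)) n N] with q hq X hX
    rw [hexa hq hn ha hε' (Rt n q N a (H q)) hX, neg_neg]
    have e1 : Ph q n N (fun l => twA q n l ^ ε * Ro n q N a (Rt n q N a (H q)) l) X =
        Ph q n N (fun Y => if N + g + 1 < n + Y then 0 else twA q n Y ^ ε * F q Y) X := by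
      refine Ph_congr q n N hq hn _ _ (fun Y hY => ?_) X
      rw [Ro_Rt hq hn ha (H q) hY]
      simp only [hH]
      split_ifs
      · rw [mul_zero]
      · rfl
    rw [e1]
    have e2 : twA q n X ^ (-ε) * twA q n X ^ ε = 1 := by
      rw [← zpow_add₀ (twA_ne hq.1 n X), neg_add_cancel, zpow_zero]
    linear_combination (ka q n N ^ (-ε) * Ph q n N (fun Y => if N + g + 1 < n + Y then 0
      else twA q n Y ^ ε * F q Y) X) * e2
  have h3 := RA_Rt hn hg ha hε' h2
  refine (h3.tw hg ε).congr ?_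
  filter_upwards [Ev11_gen (q0 (N + g)) n N] with q hq j hj
  rw [Rt_Ro hq hn ha _ hj, ← mul_assoc, ← zpow_add₀ (twS_ne hq.1 j), add_neg_cancel, zpow_zero,
    one_mul]

end Pool.Agent.OR
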