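import Pool.Agent.OR.R.RT
import Pool.Agent.OR.R.Tree

/-! # The functions of the branches of a tree have bounded coefficients -/

set_option autoImplicit false

namespace Pool.Agent.OR

open Pool.Agent.H63.VC hiding ext
open Pool.Agent.H63.VC3 Pool.Agent.H63.VC7 Pool.Agent.H63.VC8 Pool.Agent.H63.VC11
open Pool.Agent.H63.VC12 Pool.Agent.S4 Complex Filter Topology

variable {n N g m : ℕ} {a : ℤ} {F G : ℂ → ℕ → ℂ}

/-- The class of the functions of the channels of a node, for parallel and for antiparallel
strands; `e` is the number of adjacent nodes with parallel strands (modulo `2`). -/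
def Cl (n N g : ℕ) : Bool → ℕ → (ℂ → ℕ → ℂ) → Prop
  | true, _, F => RS N (q0 (N + g)) F
  | false, e, F => RA n N (q0 (N + g)) fun q X => twA q n X ^ (e : ℤ) * F q X

theorem Cl.congr {P : Bool} {e : ℕ} (h : Cl n N g P e F)
    (hG : ∀ᶠ q in 𝓝[≠] (q0 (N + g)), ∀ j ≤ N, G q j = F q j) : Cl n N g P e G := by
  cases P with
  | true => exact Sp.congr h hG
  | false =>
    refine RA.congr (F := fun q X => twA q n X ^ (e : ℤ) * F q X) h ?_
    filter_upwards [hG] with q h1 j hj
    rw [h1 j hj]

theorem twA_tt (q : ℂ) (n X : ℕ) (r : ℤ) : twA q n X ^ (2 * r) = tt q n X ^ r := by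
  rw [zpow_mul]
  congr 1
  unfold twA tt
  rw [mul_zpow, ← zpow_mul, zpow_ofNat, ← pow_mul, mul_comm X 2, pow_mul]
  norm_num
  congr 1
  ring

theorem Cl.par (hn : 2 ≤ n) (hg : 1 ≤ g) {P : Bool} {e e' : ℕ} (h : Cl n N g P e F)
    (he : e % 2 = e' % 2) : Cl n N g P e' F := by
  cases P with
  | true => exact h
  | false =>
    obtain ⟨r, hr⟩ : ∃ r : ℤ, (e' : ℤ) = 2 * r + e := ⟨((e' : ℤ) - e) / 2, by omega⟩
    have h1 := RA.tt hn hg (F := fun q X => twA q n X ^ (e : ℤ) * F q X) h r
    refine RA.congr h1 ?_
    filter_upwards [Ev11_gen (q0 (N + g)) n N] with q hq X _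
    rw [hr, zpow_add₀ (twA_ne hq.1 n X), twA_tt q, mul_assoc]

theorem Cl.mul (hg : 1 ≤ g) {P : Bool} {e e' : ℕ} (h : Cl n N g P e F)
    (h' : Cl n N g P e' G) : Cl n N g P (e + e') fun q X => F q X * G q X := by
  cases P with
  | true => exact RS.mul hg h h'
  | false =>
    have h1 := RA.mul (R_RA_q0_ne (N + g)) (F := fun q X => twA q n X ^ (e : ℤ) * F q X)
      (G := fun q X => twA q n X ^ (e' : ℤ) * G q X) h h'
    refine RA.congr h1 ?_
    filter_upwards [Ev11_gen (q0 (N + g)) n N] with q hq X _
    rw [Nat.cast_add, zpow_add₀ (twA_ne hq.1 n X)]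
    ring

theorem Cl.one (P : Bool) : Cl n N g P 0 fun _ _ => 1 := by
  cases P with
  | true => exact RS.one
  | false =>
    refine (RA.one (q0 (N + g))).congr (Eventually.of_forall fun q X _ => ?_)
    simp

theorem Cl.bdd {P : Bool} {e : ℕ} (h : Cl n N g P e F) {X : ℕ} (hX : X ≤ N) :
    (fun q => F q X) =O[𝓝[≠] (q0 (N + g))] (fun _ => (1 : ℂ)) := by
  have hx := R_RA_q0_ne (N + g)
  cases P with
  | true => exact RS.bdd hx h hX
  | false =>
    have h1 := RA.bdd hx (F := fun q X => twA q n X ^ (e : ℤ) * F q X) h hX
    have h2 := R_RA_bmul (R_RA_cb (twA_cont hx n X (-(e : ℤ)))) h1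
    refine h2.congr' ?_ EventuallyEq.rfl
    filter_upwards [R_RA_ne hx] with q hq
    rw [← mul_assoc, ← zpow_add₀ (twA_ne hq n X), neg_add_cancel, zpow_zero, one_mul]

/-- The weight of a node: the quantum dimension times `u`, for antiparallel strands only the main
channels if `κ` is true. -/
noncomputable def wgt (n N g : ℕ) (q : ℂ) : Bool → Bool → (ℕ → ℂ) → ℕ → ℂ
  | true, _, u, Y => dimT n N q Y / dimS n N q * u Y
  | false, κ, u, Y => dimA n q Y / dimS n N q *
      (if κ = true ∧ N + g + 1 < n + Y then 0 else u Y)

theorem wgt_mul (q : ℂ) (P κ : Bool) (u f : ℕ → ℂ) (Y : ℕ) :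
    wgt n N g q P κ (fun X => u X * f X) Y = wgt n N g q P κ u Y * f Y := by
  cases P with
  | true =>
    show dimT n N q Y / dimS n N q * (u Y * f Y) = dimT n N q Y / dimS n N q * u Y * f Y
    ring
  | false =>
    show dimA n q Y / dimS n N q * (if κ = true ∧ N + g + 1 < n + Y then 0 else u Y * f Y) =
      dimA n q Y / dimS n N q * (if κ = true ∧ N + g + 1 < n + Y then 0 else u Y) * f Y
    split_ifs <;> ring

theorem ker_symm (q : ℂ) (P P' : Bool) (X Y : ℕ) :
    ker n q N a P P' X Y = ker n q N a P' P Y X := by
  cases P <;> cases P'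
  · show sixn n q N X Y = sixn n q N Y X
    unfold sixn
    refine Finset.sum_congr rfl fun t _ => ?_
    congr 1
    refine Finset.prod_congr rfl fun i _ => ?_
    rw [mul_comm (br q ((n : ℤ) + X + i - 1) * br q ((X : ℤ) - i))]
  · rfl
  · rfl
  · rfl

/-- The transform of the weight of a leaf. -/
theorem Cl_TL (hn : 2 ≤ n) (hg : 1 ≤ g) (hgn : g < n) (hN : n ≤ N) (ha : IsA n N a)
    {P P' : Bool} (κ : Bool) (hP : ¬ (P = true ∧ P' = true))
    (h : Cl n N g P' (if P = true then 1 else 0) F) :
    Cl n N g P (if P' = true then 1 else 0)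
      fun q X => TL n q N a P P' (wgt n N g q P' κ (F q)) X := by
  cases P with
  | false =>
    cases P' with
    | false =>
      have h0 : RA n N (q0 (N + g)) F := by
        refine RA.congr (F := fun q X => twA q n X ^ (((if false = true then 1 else 0 : ℕ)) : ℤ) *
          F q X) h (Eventually.of_forall fun q X _ => ?_)
        simp
      have h1 : RA n N (q0 (N + g)) fun q X =>
          TL n q N a false false (wgt n N g q false κ (F q)) X := by
        cases κ with
        | false =>
          refine (RA.Ph hn hg h0).congr ?_
          filter_upwards [Ev11_gen (q0 (N + g)) n N] with q hq X _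
          rw [Ph_eq q n N hq hn]
          unfold TL
          refine Finset.sum_congr rfl fun Z _ => ?_
          show sixn n q N X Z * (dimA n q Z / dimS n N q *
            (if false = true ∧ N + g + 1 < n + Z then 0 else F q Z)) = _
          rw [if_neg (by simp)]
          ring
        | true =>
          refine (RA.PhL hn hg hgn hN h0).congr ?_
          filter_upwards [Ev11_gen (q0 (N + g)) n N] with q hq X _
          rw [Ph_eq q n N hq hn]
          unfold TL
          refine Finset.sum_congr rfl fun Z _ => ?_
          show sixn n q N X Z * (dimA n q Z / dimS n N q *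
            (if true = true ∧ N + g + 1 < n + Z then 0 else F q Z)) = _
          simp only [true_and]
          ring
      refine RA.congr h1 (Eventually.of_forall fun q X _ => ?_)
      simp
    | true =>
      have h1 := RS_Ro hn hg ha (ε := 1) (Or.inl rfl) (F := F) h
      refine RA.congr h1 (Eventually.of_forall fun q X _ => ?_)
      simp only [if_true, Nat.cast_one]
      congr 1
      unfold TL Ro
      refine Finset.sum_congr rfl fun Z _ => ?_
      show six n q N a Z X * (dimT n N q Z / dimS n N q * F q Z) = _
      ring
  | true =>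
    cases P' with
    | true => exact absurd ⟨rfl, rfl⟩ hP
    | false =>
      have h0 : RA n N (q0 (N + g)) fun q X => twA q n X ^ (1 : ℤ) * F q X := by
        refine RA.congr (F := fun q X => twA q n X ^ (((if true = true then 1 else 0 : ℕ)) : ℤ) *
          F q X) h (Eventually.of_forall fun q X _ => ?_)
        simp
      show RS N (q0 (N + g)) fun q X => TL n q N a true false (wgt n N g q false κ (F q)) X
      cases κ with
      | false =>
        refine Sp.congr (RA_Rt hn hg ha (Or.inl rfl) h0) (Eventually.of_forall fun q X _ => ?_)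
        unfold TL Rt
        refine Finset.sum_congr rfl fun Z _ => ?_
        show six n q N a X Z * (dimA n q Z / dimS n N q *
          (if false = true ∧ N + g + 1 < n + Z then 0 else F q Z)) = _
        rw [if_neg (by simp)]
        ring
      | true =>
        refine Sp.congr (RA_RtL hn hg hgn hN ha (Or.inl rfl) h0)
          (Eventually.of_forall fun q X _ => ?_)
        unfold TL Rt
        refine Finset.sum_congr rfl fun Z _ => ?_
        show six n q N a X Z * (dimA n q Z / dimS n N q *
          (if true = true ∧ N + g + 1 < n + Z then 0 else F q Z)) = _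
        simp only [true_and]
        ring

/-- The number of the adjacent nodes with parallel strands. -/
def pn (par : Fin m → Fin (m + 1)) (P : Fin (m + 1) → Bool) (i : Fin (m + 1)) : ℕ :=
  ∑ j : Fin m, ((if par j = i ∧ P j.succ = true then 1 else 0) +
    (if j.succ = i ∧ P (par j) = true then 1 else 0))

theorem pn_castSucc (par : Fin (m + 1) → Fin (m + 2)) (hpar : ∀ j, par j ≤ j.castSucc)
    (P : Fin (m + 2) → Bool) (i : Fin (m + 1)) :
    pn par P i.castSucc = pn (parI par hpar) (fun i => P i.castSucc) i +
      (if i = parL par hpar ∧ P (Fin.last (m + 1)) = true then 1 else 0) := by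
  unfold pn
  rw [Fin.sum_univ_castSucc]
  congr 1
  · refine Finset.sum_congr rfl fun j _ => ?_
    rw [← castSucc_parI par hpar j, Fin.succ_castSucc]
    simp only [Fin.castSucc_inj]
  · have h1 : ¬ ((Fin.last m).succ = i.castSucc ∧ P (par (Fin.last m)) = true) := by
      rintro ⟨h, _⟩
      rw [Fin.succ_last] at h
      exact (Fin.castSucc_lt_last i).ne' h
    rw [if_neg h1, add_zero]
    refine if_congr ?_ rfl rfl
    rw [← castSucc_parL par hpar, Fin.succ_last, Fin.castSucc_inj, eq_comm]

theorem pn_last (par : Fin (m + 1) → Fin (m + 2)) (hpar : ∀ j, par j ≤ j.castSucc)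
    (P : Fin (m + 2) → Bool) :
    pn par P (Fin.last (m + 1)) = if P (parL par hpar).castSucc = true then 1 else 0 := by
  have hlt : ∀ j : Fin (m + 1), par j ≠ Fin.last (m + 1) := by
    intro j h
    have h1 := hpar j
    rw [h, Fin.le_def] at h1
    have := j.2
    simp only [Fin.val_last, Fin.val_castSucc] at h1
    omega
  unfold pn
  rw [Fin.sum_univ_castSucc, Finset.sum_eq_zero, zero_add]
  · rw [if_neg (fun h => hlt _ h.1), zero_add, Fin.succ_last, castSucc_parL]
    simp
  · intro j _
    rw [if_neg (fun h => hlt _ h.1), if_neg, add_zero]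
    rintro ⟨h, _⟩
    rw [Fin.succ_castSucc] at h
    exact (Fin.castSucc_lt_last _).ne h

/-- The functions of the branches. -/
theorem Bs_cl (hn : 2 ≤ n) (hg : 1 ≤ g) (hgn : g < n) (hN : n ≤ N) (ha : IsA n N a) :
    ∀ (m : ℕ) (par : Fin m → Fin (m + 1)) (_ : ∀ j, par j ≤ j.castSucc)
      (P : Fin (m + 1) → Bool) (_ : ∀ j : Fin m, ¬ (P (par j) = true ∧ P j.succ = true))
      (κ : Fin (m + 1) → Bool) (u : Fin (m + 1) → ℂ → ℕ → ℂ) (s : Fin (m + 1))
      (_ : ∀ i, i ≠ s → Cl n N g (P i) (pn par P i) (u i)),
      Cl n N g (P s) (pn par P s) fun q Y =>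
        Bs n q N a par P (fun i => wgt n N g q (P i) (κ i) (u i q)) s Y := by
  intro m
  induction m with
  | zero =>
    intro par hpar P hP κ u s hu
    have hs : s = 0 := Fin.fin_one_eq_zero s
    subst hs
    have h0 : pn par P 0 = 0 := by simp [pn]
    rw [h0]
    refine (Cl.one (P 0)).congr (Eventually.of_forall fun q Y hY => ?_)
    unfold Bs TS
    rw [Finset.sum_eq_single_of_mem (fun _ => Y)]
    · simp
    · rw [Fintype.mem_piFinset]
      intro _
      exact Finset.mem_range.2 (by omega)
    · intro X _ hX
      have : X 0 ≠ Y := by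
        intro h
        apply hX
        funext i
        rw [Fin.fin_one_eq_zero i]
        exact h
      simp [this]
  | succ m ih =>
    intro par hpar P hP κ u s hu
    set p := parL par hpar with hp
    have hpl : Fin.last (m + 1) ≠ s → Cl n N g (P p.castSucc)
        (if P (Fin.last (m + 1)) = true then 1 else 0) fun q X =>
          TL n q N a (P p.castSucc) (P (Fin.last (m + 1)))
            (wgt n N g q (P (Fin.last (m + 1))) (κ (Fin.last (m + 1)))
              (u (Fin.last (m + 1)) q)) X := by
      intro hs
      refine Cl_TL hn hg hgn hN ha _ ?_ ?_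
      · have h := hP (Fin.last m)
        rw [← castSucc_parL par hpar, Fin.succ_last] at h
        exact h
      · have h := hu _ hs
        rwa [pn_last par hpar] at h
    have hP' : ∀ j : Fin m, ¬ (P (parI par hpar j).castSucc = true ∧
        P j.succ.castSucc = true) := by
      intro j
      have h := hP j.castSucc
      rwa [← castSucc_parI par hpar j, Fin.succ_castSucc] at h
    induction s using Fin.lastCases with
    | cast s =>
      have hls : Fin.last (m + 1) ≠ s.castSucc := (Fin.castSucc_lt_last s).ne'
      have hT := hpl hls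
      set T : ℂ → ℕ → ℂ := fun q X => TL n q N a (P p.castSucc) (P (Fin.last (m + 1)))
            (wgt n N g q (P (Fin.last (m + 1))) (κ (Fin.last (m + 1)))
              (u (Fin.last (m + 1)) q)) X with hTd
      have h1 := ih (parI par hpar) (parI_le par hpar) (fun i => P i.castSucc) hP'
        (fun i => κ i.castSucc)
        (fun i q X => u i.castSucc q X * (if i = p then T q X else 1)) s (by
          intro i hi
          have h2 := hu i.castSucc (fun h => hi (Fin.castSucc_injective _ h))
          rw [pn_castSucc par hpar] at h2
          by_cases hip : i = p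
          · subst hip
            simp only [if_true]
            have h3 := (h2.mul hg hT).par hn hg (e' := pn (parI par hpar)
              (fun i => P i.castSucc) p) (by
                simp only [← hp, true_and]
                split_ifs <;> omega)
            exact h3
          · simp only [if_neg hip, mul_one]
            rw [if_neg (fun h => hip h.1), add_zero] at h2
            exact h2)
      have h4 : Cl n N g (P s.castSucc) (if s = p ∧ P (Fin.last (m + 1)) = true then 1 else 0)
          fun q Y => if s = p then T q Y else 1 := by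
        by_cases hsp : s = p
        · subst hsp
          simp only [true_and, if_true]
          exact hT
        · rw [if_neg (fun h => hsp h.1)]
          simp only [if_neg hsp]
          exact Cl.one _
      rw [pn_castSucc par hpar]
      refine (h1.mul hg h4).congr (Eventually.of_forall fun q Y hY => ?_)
      rw [Bs_castSucc n q N a par hpar P]
      congr 1
      refine Bs_congr (fun i _ X _ => ?_) Y
      show wgt n N g q (P i.castSucc) (κ i.castSucc) (u i.castSucc q) X *
        (if i = p then T q X else 1) = wgt n N g q (P i.castSucc) (κ i.castSucc)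
          (fun X => u i.castSucc q X * (if i = p then T q X else 1)) X
      rw [wgt_mul]
    | last =>
      have h1 := ih (parI par hpar) (parI_le par hpar) (fun i => P i.castSucc) hP'
        (fun i => κ i.castSucc) (fun i q X => u i.castSucc q X) p (by
          intro i hi
          have h2 := hu i.castSucc (Fin.castSucc_lt_last i).ne
          rw [pn_castSucc par hpar, if_neg (fun h => hi h.1), add_zero] at h2
          exact h2)
      have h2 := hu p.castSucc (Fin.castSucc_lt_last p).ne
      rw [pn_castSucc par hpar] at h2
      have h3 := (h2.mul hg h1).par hn hg (e' := if P (Fin.last (m + 1)) = true then 1 else 0)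
        (by
          simp only [← hp, true_and]
          split_ifs <;> omega)
      rw [pn_last par hpar]
      have h4 := Cl_TL hn hg hgn hN ha (P := P (Fin.last (m + 1))) (P' := P p.castSucc)
        (κ p.castSucc) (by
          have h := hP (Fin.last m)
          rw [← castSucc_parL par hpar, Fin.succ_last] at h
          exact fun h' => h ⟨h'.2, h'.1⟩) h3
      refine h4.congr (Eventually.of_forall fun q Y hY => ?_)
      rw [Bs_last n q N a par hpar P _ hY]
      unfold TL
      refine Finset.sum_congr rfl fun X _ => ?_
      rw [ker_symm, wgt_mul]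

end Pool.Agent.OR
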