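import Pool.Agent.H63.VC8.NodeL18
import Pool.Agent.OR.R.Cls

/-! # The channels outside of the main part do not contribute -/

set_option autoImplicit false

namespace Pool.Agent.OR

open Pool.Agent.H63.VC hiding ext
open Pool.Agent.H63.VC3 Pool.Agent.H63.VC7 Pool.Agent.H63.VC8 Pool.Agent.H63.VC11
open Pool.Agent.H63.VC12 Pool.Agent.S4 Complex Filter Topology

variable {n N g m : ℕ} {a : ℤ}

private theorem R_Hyb_dim (hn : 2 ≤ n) (hg : 1 ≤ g) (hgn : g < n) (hN : n ≤ N) {Y : ℕ}
    (h1 : N + g + 1 < n + Y) (h2 : Y ≤ N) :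
    Tendsto (fun q => dimA n q Y / dimS n N q) (𝓝[≠] (q0 (N + g))) (𝓝 0) := by
  have h0 : q0 (N + g) ≠ 0 := exp_ne_zero _
  have hd : DifferentiableAt ℂ (fun q => br q ((N + g : ℕ) : ℤ) *
      (NodeL18_R n (N + g) q Y / NodeL18_D n N (N + g) q)) (q0 (N + g)) := by
    refine DifferentiableAt.fun_mul (NodeL18_br_diff _ h0 _) ?_
    refine DifferentiableAt.fun_div ?_ (NodeL18_D_diff n g N hn hg hN) (NodeL18_D_ne n g N hn hg hN)
    unfold NodeL18_R
    refine DifferentiableAt.fun_mul ?_ ?_
    · exact (NodeL18_br_diff _ h0 _).fun_div (NodeL18_br_diff _ h0 _)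
        (NodeL18_br_ne _ _ (by omega) (by omega) (by omega))
    · refine DifferentiableAt.fun_finsetProd fun u hu => ?_
      rw [Finset.mem_range] at hu
      exact ((NodeL18_rho_diff _ _ h0 _).fun_div (NodeL18_br_diff _ h0 _)
        (NodeL18_br_ne _ _ (by omega) (by omega) (by omega))).fun_pow 2
  have ht := hd.continuousAt.tendsto.mono_left (nhdsWithin_le_nhds (s := {q0 (N + g)}ᶜ))
  have hz : br (q0 (N + g)) ((N + g : ℕ) : ℤ) = 0 := NodeL18_br_root (N + g) (by omega)
  rw [hz, zero_mul] at ht
  refine ht.congr' ?_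
  have hev : ∀ᶠ q in 𝓝[≠] (q0 (N + g)), ∀ i : ℕ, 1 ≤ i → i ≤ N + n → br q i ≠ 0 :=
    NodeL18_ev g N n hg hN
  filter_upwards [hev] with q hq
  have hb : br q ((N + g : ℕ) : ℤ) ≠ 0 := hq (N + g) (by omega) (by omega)
  rw [NodeL18_dimA n (N + g) Y hn (by omega) (by omega) q (fun i h1 h2 => hq i h1 (by omega)),
    NodeL18_dimS n N (N + g) (by omega) (by omega) q, sq, mul_assoc,
    mul_div_mul_left _ _ hb, mul_div_assoc]

private theorem R_Hyb_vw (hn : 2 ≤ n) (hg : 1 ≤ g) (hgn : g < n) (hN : n ≤ N) (b : ℤ) {Y : ℕ}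
    (h1 : N + g + 1 < n + Y) (h2 : Y ≤ N) :
    Tendsto (fun q => vw n q N false b Y) (𝓝[≠] (q0 (N + g))) (𝓝 0) := by
  have h0 : q0 (N + g) ≠ 0 := exp_ne_zero _
  have ht := (R_Hyb_dim hn hg hgn hN h1 h2).mul
    ((twA_cont h0 n Y b).tendsto.mono_left (nhdsWithin_le_nhds (s := {q0 (N + g)}ᶜ)))
  rw [zero_mul] at ht
  exact ht

/-- The sum over the restricted channels. -/
noncomputable def mixcT (n : ℕ) (q : ℂ) (N L : ℕ) (a : ℤ) (par : Fin m → Fin (m + 1))
    (P : Fin (m + 1) → Bool) (b : Fin (m + 1) → ℤ) : ℂ :=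
  ∑ X ∈ Fintype.piFinset (fun _ : Fin (m + 1) => Finset.range (N + 1)),
    (∏ i, vwc n q N L (P i) (b i) (X i)) *
      ∏ j : Fin m, ker n q N a (P (par j)) (P j.succ) (X (par j)) (X j.succ)

/-- The half twists of a node. -/
noncomputable def tw4 (n : ℕ) (q : ℂ) : Bool → ℤ → ℕ → ℂ
  | true, b, X => twS q X ^ b
  | false, b, X => twA q n X ^ b

theorem Cl_tw4 (hn : 2 ≤ n) (hg : 1 ≤ g) (P : Bool) (b : ℤ) (e : ℕ)
    (h : P = false → (2 : ℤ) ∣ b - e) : Cl n N g P e fun q X => tw4 n q P b X := by
  cases P with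
  | true =>
    refine Sp.congr (RS.tw hg RS.one b) (Eventually.of_forall fun q X _ => ?_)
    rw [mul_one]
    rfl
  | false =>
    obtain ⟨r, hr⟩ : ∃ r : ℤ, b + e = 2 * r := by
      obtain ⟨c, hc⟩ := h rfl
      exact ⟨c + e, by omega⟩
    refine RA.congr (RA.tt hn hg (RA.one _) r) ?_
    filter_upwards [Ev11_gen (q0 (N + g)) n N] with q hq X _
    show twA q n X ^ (e : ℤ) * twA q n X ^ b = tt q n X ^ r * 1
    rw [← zpow_add₀ (twA_ne hq.1 n X), ← twA_tt, mul_one]
    congr 1
    omega

theorem wgt_vw (q : ℂ) (P : Bool) (b : ℤ) {Y : ℕ} :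
    wgt n N g q P false (tw4 n q P b) Y = vw n q N P b Y := by
  cases P with
  | true => rfl
  | false =>
    show dimA n q Y / dimS n N q * (if false = true ∧ N + g + 1 < n + Y then 0
      else twA q n Y ^ b) = dimA n q Y / dimS n N q * twA q n Y ^ b
    rw [if_neg (by simp)]

theorem wgt_vwc {L : ℕ} (hL : L + n = N + g + 1) (q : ℂ) (P : Bool) (b : ℤ) {Y : ℕ} :
    wgt n N g q P true (tw4 n q P b) Y = vwc n q N L P b Y := by
  unfold vwc
  cases P with
  | true => rfl
  | false =>
    show dimA n q Y / dimS n N q * (if true = true ∧ N + g + 1 < n + Y then 0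
      else twA q n Y ^ b) = _
    by_cases h : L < Y
    · rw [if_pos ⟨rfl, by omega⟩, if_pos ⟨rfl, h⟩, mul_zero]
    · rw [if_neg (by omega), if_neg (fun h' => h h'.2)]
      rfl

/-- The weights with restricted channels for the nodes with an index less than `s`. -/
noncomputable def wk4 (n N g : ℕ) (P : Fin (m + 1) → Bool) (b : Fin (m + 1) → ℤ) (s : ℕ) (q : ℂ)
    (i : Fin (m + 1)) : ℕ → ℂ :=
  wgt n N g q (P i) (decide (i.val < s)) (tw4 n q (P i) (b i))

private theorem step (hn : 2 ≤ n) (hg : 1 ≤ g) (hgn : g < n) (hN : n ≤ N) (ha : IsA n N a)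
    (par : Fin m → Fin (m + 1)) (hpar : ∀ j, par j ≤ j.castSucc) (P : Fin (m + 1) → Bool)
    (hP : ∀ j : Fin m, ¬ (P (par j) = true ∧ P j.succ = true)) (b : Fin (m + 1) → ℤ)
    (hb : ∀ i, P i = false → (2 : ℤ) ∣ b i - pn par P i) (s : ℕ) (hs : s < m + 1) :
    Tendsto (fun q => TS n q N a par P (wk4 n N g P b s q) -
      TS n q N a par P (wk4 n N g P b (s + 1) q)) (𝓝[≠] (q0 (N + g))) (𝓝 0) := by
  set t : Fin (m + 1) := ⟨s, hs⟩ with ht
  have e1 : ∀ q, wk4 n N g P b s q = Function.update (wk4 n N g P b s q) t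
      (wgt n N g q (P t) false (tw4 n q (P t) (b t))) := by
    intro q
    funext i
    by_cases hi : i = t
    · subst hi
      rw [Function.update_self]
      unfold wk4
      simp [ht]
    · rw [Function.update_of_ne hi]
  have e2 : ∀ q, wk4 n N g P b (s + 1) q = Function.update (wk4 n N g P b s q) t
      (wgt n N g q (P t) true (tw4 n q (P t) (b t))) := by
    intro q
    funext i
    by_cases hi : i = t
    · subst hi
      rw [Function.update_self]
      unfold wk4
      simp [ht]
    · rw [Function.update_of_ne hi]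
      unfold wk4
      have h1 : i.val ≠ s := fun h => hi (Fin.ext h)
      have h2 : (i.val < s + 1) ↔ (i.val < s) := by omega
      simp only [h2]
  have e3 : ∀ q, TS n q N a par P (wk4 n N g P b s q) -
      TS n q N a par P (wk4 n N g P b (s + 1) q) = ∑ Y ∈ Finset.range (N + 1),
        (wgt n N g q (P t) false (tw4 n q (P t) (b t)) Y -
          wgt n N g q (P t) true (tw4 n q (P t) (b t)) Y) *
          Bs n q N a par P (wk4 n N g P b s q) t Y := by
    intro q
    rw [e1 q, e2 q, TS_update, TS_update, ← Finset.sum_sub_distrib]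
    have e4 : ∀ Y, Bs n q N a par P (Function.update (wk4 n N g P b s q) t
        (wgt n N g q (P t) false (tw4 n q (P t) (b t)))) t Y =
        Bs n q N a par P (wk4 n N g P b s q) t Y := by
      intro Y
      rw [← e1 q]
    refine Finset.sum_congr rfl fun Y _ => ?_
    rw [e4]
    ring
  have hB := Bs_cl hn hg hgn hN ha m par hpar P hP (fun i => decide (i.val < s))
    (fun i q => tw4 n q (P i) (b i)) t (fun i _ => Cl_tw4 hn hg (P i) (b i) _ (hb i))
  simp only [e3]
  have hz : ∀ Y ∈ Finset.range (N + 1), Tendsto (fun q =>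
      (wgt n N g q (P t) false (tw4 n q (P t) (b t)) Y -
          wgt n N g q (P t) true (tw4 n q (P t) (b t)) Y) *
          Bs n q N a par P (wk4 n N g P b s q) t Y) (𝓝[≠] (q0 (N + g))) (𝓝 0) := by
    intro Y hY
    have hY' : Y ≤ N := Nat.lt_succ_iff.1 (Finset.mem_range.1 hY)
    have hbd := hB.bdd hY'
    cases hPt : P t with
    | true =>
      have e5 : ∀ q, wgt n N g q true false (tw4 n q true (b t)) Y -
          wgt n N g q true true (tw4 n q true (b t)) Y = 0 := fun q => sub_self _
      simp only [e5, zero_mul]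
      exact tendsto_const_nhds
    | false =>
      by_cases hLY : N + g + 1 < n + Y
      · have e5 : ∀ q, wgt n N g q false false (tw4 n q false (b t)) Y -
            wgt n N g q false true (tw4 n q false (b t)) Y = vw n q N false (b t) Y := by
          intro q
          rw [wgt_vw]
          show vw n q N false (b t) Y - dimA n q Y / dimS n N q *
            (if true = true ∧ N + g + 1 < n + Y then 0 else _) = _
          rw [if_pos ⟨rfl, hLY⟩, mul_zero, sub_zero]
        simp only [e5]
        have h1 := (Asymptotics.isLittleO_one_iff ℂ).2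
          (R_Hyb_vw hn hg hgn hN (b t) hLY hY')
        have h4 := h1.mul_isBigO hbd
        simp only [mul_one] at h4
        exact (Asymptotics.isLittleO_one_iff ℂ).1 h4
      · have e5 : ∀ q, wgt n N g q false false (tw4 n q false (b t)) Y -
            wgt n N g q false true (tw4 n q false (b t)) Y = 0 := by
          intro q
          show dimA n q Y / dimS n N q *
            (if false = true ∧ N + g + 1 < n + Y then 0 else _) - dimA n q Y / dimS n N q *
            (if true = true ∧ N + g + 1 < n + Y then 0 else _) = _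
          rw [if_neg (by simp), if_neg (fun h => hLY h.2), sub_self]
        simp only [e5, zero_mul]
        exact tendsto_const_nhds
  have hs' := tendsto_finsetSum (Finset.range (N + 1)) hz
  simpa only [Finset.sum_const_zero] using hs'

/-- The channels outside of the main part do not contribute. -/
theorem hybridT (hn : 2 ≤ n) (hg : 1 ≤ g) (hgn : g < n) (hN : n ≤ N) {L : ℕ}
    (hL : L + n = N + g + 1) (ha : IsA n N a) (par : Fin m → Fin (m + 1))
    (hpar : ∀ j, par j ≤ j.castSucc) (P : Fin (m + 1) → Bool)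
    (hP : ∀ j : Fin m, ¬ (P (par j) = true ∧ P j.succ = true)) (b : Fin (m + 1) → ℤ)
    (hb : ∀ i, P i = false → (2 : ℤ) ∣ b i - pn par P i) :
    Tendsto (fun q => mixT n q N a par P b - mixcT n q N L a par P b)
      (𝓝[≠] (q0 (N + g))) (𝓝 0) := by
  have key : ∀ s ≤ m + 1, Tendsto (fun q => TS n q N a par P (wk4 n N g P b 0 q) -
      TS n q N a par P (wk4 n N g P b s q)) (𝓝[≠] (q0 (N + g))) (𝓝 0) := by
    intro s
    induction s with
    | zero =>
      intro _
      simp only [sub_self]
      exact tendsto_const_nhds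
    | succ s ih =>
      intro hs
      have h1 := (ih (by omega)).add (step hn hg hgn hN ha par hpar P hP b hb s (by omega))
      rw [add_zero] at h1
      exact h1.congr fun q => by ring
  refine (key (m + 1) le_rfl).congr fun q => ?_
  congr 1
  · rw [mixT_TS]
    refine TS_congr fun i X _ => ?_
    unfold wk4
    rw [show decide (i.val < 0) = false by simp]
    exact wgt_vw q (P i) (b i)
  · have e : mixcT n q N L a par P b =
        TS n q N a par P fun i => vwc n q N L (P i) (b i) := rfl
    rw [e]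
    refine TS_congr fun i X _ => ?_
    unfold wk4
    rw [show decide (i.val < m + 1) = true by simp [i.2]]
    exact wgt_vwc hL q (P i) (b i)

end Pool.Agent.OR
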