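import Pool.Agent.AT.SU.Defs
import Pool.Agent.OR.G.Defs
import Pool.Agent.OR.R.Hyb
import Pool.Agent.S4.R.Swap

/-! # The restricted state sum as a sum over the edges -/

set_option autoImplicit false

namespace Pool.Agent.OR

open Pool.Agent.H63.VC hiding ext
open Pool.Agent.H63.VC3 Pool.Agent.H63.VC7 Pool.Agent.H63.VC8 Pool.Agent.H63.VC11
open Pool.Agent.H63.VC12 Complex Filter Topology
open Pool.Agent.AT (Tr)
open Pool.Agent.AT.SU (ie)
open Pool.Agent.AT.SU.OR (sn et JG4)
open Pool.Agent.S4 (E4 NF4 sl4 Ca vwc vw ker R_Swap_g R_Swap_ker R_Swap_sum)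

variable {m : ℕ} [Tr m]

/-- For antiparallel strands the two definitions of the number of the adjacent nodes of the other
type agree. -/
theorem pn_sn (P : Fin (m + 1) → Bool) (i : Fin (m + 1)) (hi : P i = false) :
    pn (Tr.par (m := m)) P i = sn P i := by
  unfold pn sn ie inc
  rw [Finset.filter_filter, Finset.card_filter]
  refine Finset.sum_congr rfl fun j _ => ?_
  have hne : Tr.par j ≠ j.succ := Tr.ne j
  unfold et
  by_cases h1 : Tr.par j = i
  · have h2 : j.succ ≠ i := fun h => hne (h1.trans h.symm)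
    have h3 : P (Tr.par j) = false := by rw [h1]; exact hi
    rw [if_neg (fun h : j.succ = i ∧ _ => h2 h.1), add_zero]
    refine if_congr ?_ rfl rfl
    rw [h3]
    simp [h1]
  · by_cases h2 : j.succ = i
    · have h3 : P j.succ = false := by rw [h2]; exact hi
      rw [if_neg (fun h : Tr.par j = i ∧ _ => h1 h.1), zero_add]
      refine if_congr ?_ rfl rfl
      rw [h3]
      simp [h2]
    · rw [if_neg (fun h : Tr.par j = i ∧ _ => h1 h.1), if_neg (fun h : j.succ = i ∧ _ => h2 h.1),
        if_neg (fun h => h.1.elim h1 h2)]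

private theorem swap_node (n : ℕ) (a : ℤ) (q : ℂ) (P : Fin (m + 1) → Bool) (i : Fin (m + 1))
    (t : Fin m → ℕ) (X : ℕ) :
    ∏ j ∈ ie i, R_Swap_g n a q (P i) (et P j) (t j) X =
      (if P i then 1 else Ca n a q X ^ sn P i) * ∏ j ∈ ie i, sl4 n a q (P i) (t j) X := by
  unfold R_Swap_g
  rw [Finset.prod_mul_distrib, mul_comm]
  congr 1
  cases h : P i
  · simp only [true_and]
    rw [Finset.prod_ite, Finset.prod_const, Finset.prod_const_one, mul_one]
    simp [sn]
  · simp

theorem mixcT_swap (n : ℕ) (q : ℂ) (N L : ℕ) (hL : L ≤ N) (a : ℤ) (P : Fin (m + 1) → Bool)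
    (hP : ∀ j : Fin m, ¬ (P (Tr.par j) = true ∧ P j.succ = true)) (b : Fin (m + 1) → ℤ) :
    mixcT n q N L a (Tr.par (m := m)) P b =
      ∑ t ∈ Fintype.piFinset (fun _ : Fin m => Finset.range (L + 1)),
      (∏ j, E4 n N a q (et P j) (t j)) *
        ∏ i, NF4 n N L a q (P i) (b i) (sn P i) (ie i) t := by
  have hst : ∀ j : Fin m, Tr.par j ≠ Fin.succ j := fun j => Tr.ne j
  have h1 : ∀ X : Fin (m + 1) → ℕ, (∏ i, vwc n q N L (P i) (b i) (X i)) *
      ∏ j : Fin m, ker n q N a (P (Tr.par j)) (P j.succ) (X (Tr.par j)) (X j.succ) =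
      ∑ t ∈ Fintype.piFinset (fun _ : Fin m => Finset.range (L + 1)),
        (∏ j, E4 n N a q (et P j) (t j)) * ∏ i, (vwc n q N L (P i) (b i) (X i) *
          ((if P i then 1 else Ca n a q (X i) ^ sn P i) *
            ∏ j ∈ ie i, sl4 n a q (P i) (t j) (X i))) := by
    intro X
    have h2 : ∀ t : Fin m → ℕ, ∏ i, (vwc n q N L (P i) (b i) (X i) *
          ((if P i then 1 else Ca n a q (X i) ^ sn P i) *
            ∏ j ∈ ie i, sl4 n a q (P i) (t j) (X i))) =
        (∏ i, vwc n q N L (P i) (b i) (X i)) * ∏ i, ∏ j ∈ ie i,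
          R_Swap_g n a q (P i) (et P j) (t j) (X i) := by
      intro t
      rw [Finset.prod_mul_distrib]
      congr 1
      exact Finset.prod_congr rfl fun i _ => (swap_node n a q P i t (X i)).symm
    simp only [h2]
    by_cases h0 : ∀ i, P i = false → X i ≤ L
    · have h3 : ∏ j : Fin m, ker n q N a (P (Tr.par j)) (P j.succ) (X (Tr.par j)) (X j.succ) =
          ∑ t ∈ Fintype.piFinset (fun _ : Fin m => Finset.range (L + 1)),
            (∏ j, E4 n N a q (et P j) (t j)) * ∏ i, ∏ j ∈ ie i,
              R_Swap_g n a q (P i) (et P j) (t j) (X i) := by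
        have h4 : ∀ j : Fin m,
            ker n q N a (P (Tr.par j)) (P j.succ) (X (Tr.par j)) (X j.succ) =
            ∑ t ∈ Finset.range (L + 1), E4 n N a q (et P j) t *
              (R_Swap_g n a q (P (Tr.par j)) (et P j) t (X (Tr.par j)) *
                R_Swap_g n a q (P j.succ) (et P j) t (X j.succ)) := fun j =>
          R_Swap_ker n q N L hL a _ _ (hP j) _ _ (h0 _) (h0 _)
        rw [Finset.prod_congr rfl fun j _ => h4 j, Finset.prod_univ_sum]
        refine Finset.sum_congr rfl fun t _ => ?_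
        rw [Finset.prod_mul_distrib]
        congr 1
        exact (prod_inc (Tr.par (m := m)) Fin.succ hst
          (fun i j => R_Swap_g n a q (P i) (et P j) (t j) (X i))).symm
      rw [h3, Finset.mul_sum]
      exact Finset.sum_congr rfl fun t _ => by ring
    · have h5 : ∏ i, vwc n q N L (P i) (b i) (X i) = 0 := by
        push Not at h0
        obtain ⟨i, hi, hi'⟩ := h0
        refine Finset.prod_eq_zero (Finset.mem_univ i) ?_
        unfold vwc
        rw [if_pos ⟨hi, hi'⟩]
      simp [h5]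
  unfold mixcT
  simp only [h1]
  rw [Finset.sum_comm]
  refine Finset.sum_congr rfl fun t _ => ?_
  rw [← Finset.mul_sum]
  congr 1
  have h6 : ∀ i, NF4 n N L a q (P i) (b i) (sn P i) (ie i) t =
      ∑ X ∈ Finset.range (N + 1), vwc n q N L (P i) (b i) X *
        ((if P i then 1 else Ca n a q X ^ sn P i) * ∏ j ∈ ie i, sl4 n a q (P i) (t j) X) :=
    fun i => (R_Swap_sum n q N L hL (P i) (b i) _).symm
  rw [Finset.prod_congr rfl fun i _ => h6 i, Finset.prod_univ_sum]

end Pool.Agent.OR
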