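import Pool.Agent.H63.VC8.QcLL8
import Pool.Agent.OR.R.Swap
import Pool.Agent.S4.R.NodeA
import Pool.Agent.S4.R.NodeS

/-! # The limit at the roots of unity -/

set_option autoImplicit false

namespace Pool.Agent.OR

open Pool.Agent.H63.VC hiding ext
open Pool.Agent.H63.VC3 Pool.Agent.H63.VC7 Pool.Agent.H63.VC8 Pool.Agent.H63.VC11
open Pool.Agent.H63.VC12 Complex Filter Topology
open Pool.Agent.AT (Tr)
open Pool.Agent.AT.SU (ie)
open Pool.Agent.AT.SU.OR (sn et JG4)
open Pool.Agent.S4 hiding sn et JG4 ie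

variable {m : ℕ} [Tr m]

private theorem isA {n N g h : ℕ} {a : ℤ} (ha : IsH n N g h a) : IsA n N a := by
  rcases ha with ⟨_, _, h3⟩ | ⟨_, _, h3⟩
  · exact Or.inl h3
  · exact Or.inr h3

/-- The contribution of a slot to the constant. -/
private noncomputable def fhf (P : Fin (m + 1) → Bool) (n h M : ℕ) (t : Fin m → ℕ)
    (i : Fin (m + 1)) (j : Fin m) : ℂ :=
  if P i then (M : ℂ) else (-1) ^ (t j) * (M : ℂ) *
    (if et P j then (S M (h - 1) : ℂ) / (S M (n - h - 1) : ℂ) else 1)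

private theorem fin_node (P : Fin (m + 1) → Bool) (b : Fin (m + 1) → ℤ) (n g N : ℕ)
    (hn : 2 ≤ n) (hg : 1 ≤ g) (hgn : g < n) (hN : n ≤ N) {h : ℕ} {a : ℤ}
    (ha : IsH n N g h a) (t : Fin m → ℕ) (ht : ∀ j, t j + n ≤ N + g + 1) (i : Fin (m + 1)) :
    Tendsto (fun q => NF4 n N (N + g + 1 - n) a q (P i) (b i) (sn P i) (ie i) t)
      (𝓝[≠] (q0 (N + g)))
      (𝓝 (cst n g (N + g) (P i) (b i) * (∏ j ∈ ie i, fhf P n h (N + g) t i j) *
        DG4 ((b i : ℝ) / 2) n h (N + g) (P i) (sn P i) (ie i) (fun j => N + g + 1 - n - t j))) := by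
  cases hP : P i with
  | true =>
    have h1 := nodeS_lim (b i) n g N hn hg hgn hN ha (N + g + 1 - n) (sn P i) (ie i) t
      (fun j _ => ht j)
    have e : ∏ j ∈ ie i, fhf P n h (N + g) t i j = ∏ _j ∈ ie i, ((N + g : ℕ) : ℂ) := by
      refine Finset.prod_congr rfl fun j _ => ?_
      simp [fhf, hP]
    rw [e]
    exact h1
  | false =>
    have h1 := nodeA_lim (b i) n g N hn hg hgn hN ha (sn P i) (ie i) t (fun j _ => ht j)
    have e : ∏ j ∈ ie i, fhf P n h (N + g) t i j =
        ((S (N + g) (h - 1) : ℂ) / (S (N + g) (n - h - 1) : ℂ)) ^ (sn P i) *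
          ∏ j ∈ ie i, ((-1) ^ (t j) * ((N + g : ℕ) : ℂ)) := by
      have e1 : ∏ j ∈ ie i, fhf P n h (N + g) t i j =
          ∏ j ∈ ie i, (((-1) ^ (t j) * ((N + g : ℕ) : ℂ)) *
            (if et P j then (S (N + g) (h - 1) : ℂ) / (S (N + g) (n - h - 1) : ℂ) else 1)) := by
        refine Finset.prod_congr rfl fun j _ => ?_
        unfold fhf
        rw [if_neg (by rw [hP]; exact Bool.false_ne_true)]
      rw [e1, Finset.prod_mul_distrib, Finset.prod_ite, Finset.prod_const, Finset.prod_const_one,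
        mul_one, mul_comm]
      rfl
    rw [e, ← mul_assoc]
    exact h1

/-- The limit of the weight of an edge. -/
private noncomputable def fel (P : Fin (m + 1) → Bool) (n g h M : ℕ) (t : Fin m → ℕ)
    (j : Fin m) : ℂ :=
  if et P j then (-1) ^ (t j) * (S M (n - 2) : ℂ) * (S M (n - h - 1) : ℂ) ^ 2 / (M : ℂ) ^ 4 *
      (w4 n h true M (M + 1 - n - t j) : ℂ)
  else (Dg n g M : ℂ) / (M : ℂ) ^ 4 * (w4 n h false M (M + 1 - n - t j) : ℂ)

private theorem fin_edge (P : Fin (m + 1) → Bool) (n g N : ℕ) (hn : 2 ≤ n) (hg : 1 ≤ g)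
    (hgn : g < n) (hN : n ≤ N) {h : ℕ} {a : ℤ} (ha : IsH n N g h a) (t : Fin m → ℕ)
    (ht : ∀ j, t j + n ≤ N + g + 1) (j : Fin m) :
    Tendsto (fun q => E4 n N a q (et P j) (t j)) (𝓝[≠] (q0 (N + g)))
      (𝓝 (fel P n g h (N + g) t j)) := by
  unfold fel
  cases he : et P j with
  | true =>
    rw [if_pos rfl]
    exact E4_true n g N (t j) hn hg hgn hN ha (ht j)
  | false =>
    rw [if_neg Bool.false_ne_true]
    exact E4_false n g N (t j) hn hg hgn hN ha (ht j)

private theorem fin_const (P : Fin (m + 1) → Bool)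
    (hP : ∀ j : Fin m, ¬ (P (Tr.par j) = true ∧ P j.succ = true)) (n g N : ℕ)
    (hgn : g < n) (hg : 1 ≤ g) (hN : n ≤ N) {h : ℕ} {a : ℤ} (ha : IsH n N g h a) (t : Fin m → ℕ)
    (j : Fin m) :
    fel P n g h (N + g) t j * (fhf P n h (N + g) t (Tr.par j) j *
      fhf P n h (N + g) t j.succ j) =
    (Dg n g (N + g) : ℂ) / ((N + g : ℕ) : ℂ) ^ 2 *
      (w4 n h (et P j) (N + g) (N + g + 1 - n - t j) : ℂ) := by
  have hM : ((N + g : ℕ) : ℂ) ≠ 0 := by exact_mod_cast (by omega : N + g ≠ 0)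
  have hS : (S (N + g) (n - h - 1) : ℂ) ≠ 0 := by
    have := S_pos (M := N + g) (k := n - h - 1) (by omega)
    exact_mod_cast this.ne'
  have hD : (Dg n g (N + g) : ℂ) = (S (N + g) (h - 1) : ℂ) * (S (N + g) (n - h - 1) : ℂ) *
      (S (N + g) (n - 2) : ℂ) := by
    unfold Dg
    rcases ha with ⟨h1, _, _⟩ | ⟨h1, _, _⟩
    · subst h1
      push_cast
      ring
    · have e1 : n - g - 1 = h - 1 := by omega
      have e2 : n - h - 1 = g - 1 := by omega
      rw [e1, e2]
      push_cast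
      ring
  have hs : ((-1 : ℂ) ^ (t j)) * (-1) ^ (t j) = 1 := by
    rw [← mul_pow]
    norm_num
  unfold fel fhf
  rw [hD]
  cases h1 : P (Tr.par j) with
  | true =>
    cases h2 : P j.succ with
    | true => exact absurd ⟨h1, h2⟩ (hP j)
    | false =>
      have he : et P j = true := by simp [et, h1]
      rw [he]
      simp only [if_true, Bool.false_eq_true, if_false]
      generalize (S (N + g) (n - h - 1) : ℂ) = A at hS ⊢
      generalize (S (N + g) (h - 1) : ℂ) = B
      generalize (S (N + g) (n - 2) : ℂ) = C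
      generalize ((w4 n h true (N + g) (N + g + 1 - n - t j) : ℝ) : ℂ) = w
      generalize ((N + g : ℕ) : ℂ) = M at hM ⊢
      field_simp
      linear_combination (B * C * w) * hs
  | false =>
    cases h2 : P j.succ with
    | true =>
      have he : et P j = true := by simp [et, h2]
      rw [he]
      simp only [if_true, Bool.false_eq_true, if_false]
      generalize (S (N + g) (n - h - 1) : ℂ) = A at hS ⊢
      generalize (S (N + g) (h - 1) : ℂ) = B
      generalize (S (N + g) (n - 2) : ℂ) = C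
      generalize ((w4 n h true (N + g) (N + g + 1 - n - t j) : ℝ) : ℂ) = w
      generalize ((N + g : ℕ) : ℂ) = M at hM ⊢
      field_simp
      linear_combination (B * C * w) * hs
    | false =>
      have he : et P j = false := by simp [et, h1, h2]
      rw [he]
      simp only [Bool.false_eq_true, if_false]
      generalize (S (N + g) (n - h - 1) : ℂ) = A at hS ⊢
      generalize (S (N + g) (h - 1) : ℂ) = B
      generalize (S (N + g) (n - 2) : ℂ) = C
      generalize ((w4 n h false (N + g) (N + g + 1 - n - t j) : ℝ) : ℂ) = w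
      generalize ((N + g : ℕ) : ℂ) = M at hM ⊢
      field_simp
      linear_combination (B * C * w) * hs

/-- Reindexing of the limit. -/
private theorem fin_sum (P : Fin (m + 1) → Bool)
    (hP : ∀ j : Fin m, ¬ (P (Tr.par j) = true ∧ P j.succ = true)) (b : Fin (m + 1) → ℤ)
    (n g N : ℕ) (hgn : g < n) (hg : 1 ≤ g) (hN : n ≤ N) {h : ℕ} {a : ℤ}
    (ha : IsH n N g h a) :
    ∑ t ∈ Fintype.piFinset (fun _ : Fin m => Finset.range (N + g + 1 - n + 1)),
      (∏ j, fel P n g h (N + g) t j) *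
        ∏ i, (cst n g (N + g) (P i) (b i) * (∏ j ∈ ie i, fhf P n h (N + g) t i j) *
          DG4 ((b i : ℝ) / 2) n h (N + g) (P i) (sn P i) (ie i)
            (fun j => N + g + 1 - n - t j)) =
    (∏ i, cst n g (N + g) (P i) (b i)) *
        ((Dg n g (N + g) : ℂ) / ((N + g : ℕ) : ℂ) ^ 2) ^ m *
        JG4 P (fun i => (b i : ℝ) / 2) n h (N + g) := by
  unfold JG4
  rw [Finset.mul_sum]
  refine Finset.sum_bij' (fun k _ => fun j => N + g + 1 - n - k j)
    (fun k _ => fun j => N + g + 1 - n - k j) ?_ ?_ ?_ ?_ ?_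
  · intro k _
    rw [Fintype.mem_piFinset]
    intro j
    rw [Finset.mem_range]
    omega
  · intro k _
    rw [Fintype.mem_piFinset]
    intro j
    rw [Finset.mem_range]
    omega
  · intro k hk
    rw [Fintype.mem_piFinset] at hk
    funext j
    have := Finset.mem_range.1 (hk j)
    show N + g + 1 - n - (N + g + 1 - n - k j) = k j
    omega
  · intro k hk
    rw [Fintype.mem_piFinset] at hk
    funext j
    have := Finset.mem_range.1 (hk j)
    show N + g + 1 - n - (N + g + 1 - n - k j) = k j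
    omega
  · intro t _
    have hst : ∀ j : Fin m, Tr.par j ≠ Fin.succ j := fun j => Tr.ne j
    rw [Finset.prod_mul_distrib, Finset.prod_mul_distrib]
    have e0 : ∏ i, ∏ j ∈ ie i, fhf P n h (N + g) t i j =
        ∏ j, (fhf P n h (N + g) t (Tr.par j) j *
          fhf P n h (N + g) t (Fin.succ j) j) :=
      prod_inc (Tr.par (m := m)) Fin.succ hst (fhf P n h (N + g) t)
    rw [e0]
    have e1 : (∏ j, fel P n g h (N + g) t j) *
        ∏ j, (fhf P n h (N + g) t (Tr.par j) j *
          fhf P n h (N + g) t (Fin.succ j) j) =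
        ((Dg n g (N + g) : ℂ) / ((N + g : ℕ) : ℂ) ^ 2) ^ m *
          ∏ j, (w4 n h (et P j) (N + g) (N + g + 1 - n - t j) : ℂ) := by
      have e3 : ((Dg n g (N + g) : ℂ) / ((N + g : ℕ) : ℂ) ^ 2) ^ m =
          ∏ _j : Fin m, ((Dg n g (N + g) : ℂ) / ((N + g : ℕ) : ℂ) ^ 2) := by
        rw [Finset.prod_const, Finset.card_univ, Fintype.card_fin]
      rw [e3, ← Finset.prod_mul_distrib, ← Finset.prod_mul_distrib]
      exact Finset.prod_congr rfl fun j _ => fin_const P hP n g N hgn hg hN ha t j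
    calc _ = ((∏ j, fel P n g h (N + g) t j) *
        ∏ j, (fhf P n h (N + g) t (Tr.par j) j *
          fhf P n h (N + g) t (Fin.succ j) j)) *
          ((∏ i, cst n g (N + g) (P i) (b i)) *
            ∏ i, DG4 ((b i : ℝ) / 2) n h (N + g) (P i) (sn P i) (ie i)
              (fun j => N + g + 1 - n - t j)) := by ring
      _ = _ := by
        rw [e1]
        ring

/-- The sum over the channels at the roots of unity. -/
theorem root_limT (P : Fin (m + 1) → Bool) (b : Fin (m + 1) → ℤ)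
    (hP : ∀ j : Fin m, ¬ (P (Tr.par j) = true ∧ P j.succ = true))
    (hb : ∀ i, P i = false → (2 : ℤ) ∣ b i - sn P i) (n g N : ℕ) (hn : 2 ≤ n) (hg : 1 ≤ g)
    (hgn : g < n) (hN : n ≤ N) {h : ℕ} {a : ℤ} (ha : IsH n N g h a) :
    Tendsto (fun q => mixT n q N a (Tr.par (m := m)) P b) (𝓝[≠] (q0 (N + g)))
      (𝓝 ((∏ i, cst n g (N + g) (P i) (b i)) *
        ((Dg n g (N + g) : ℂ) / ((N + g : ℕ) : ℂ) ^ 2) ^ m *
        JG4 P (fun i => (b i : ℝ) / 2) n h (N + g))) := by
  have h1 := hybridT hn hg hgn hN (L := N + g + 1 - n) (by omega) (isA ha) (Tr.par (m := m))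
    Tr.le P hP b (fun i hi => by rw [pn_sn P i hi]; exact hb i hi)
  have h2 : Tendsto (fun q => mixcT n q N (N + g + 1 - n) a (Tr.par (m := m)) P b)
      (𝓝[≠] (q0 (N + g)))
      (𝓝 ((∏ i, cst n g (N + g) (P i) (b i)) *
        ((Dg n g (N + g) : ℂ) / ((N + g : ℕ) : ℂ) ^ 2) ^ m *
        JG4 P (fun i => (b i : ℝ) / 2) n h (N + g))) := by
    rw [← fin_sum P hP b n g N hgn hg hN ha]
    have e : (fun q => mixcT n q N (N + g + 1 - n) a (Tr.par (m := m)) P b) = fun q =>
        ∑ t ∈ Fintype.piFinset (fun _ : Fin m => Finset.range (N + g + 1 - n + 1)),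
          (∏ j, E4 n N a q (et P j) (t j)) *
            ∏ i, NF4 n N (N + g + 1 - n) a q (P i) (b i) (sn P i) (ie i) t := by
      funext q
      exact mixcT_swap n q N (N + g + 1 - n) (by omega) a P hP b
    rw [e]
    refine tendsto_finsetSum _ fun t ht => ?_
    rw [Fintype.mem_piFinset] at ht
    have ht' : ∀ j, t j + n ≤ N + g + 1 := fun j => by
      have := Finset.mem_range.1 (ht j)
      omega
    refine Tendsto.mul ?_ ?_
    · exact tendsto_finsetProd _ fun j _ => fin_edge P n g N hn hg hgn hN ha t ht' j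
    · exact tendsto_finsetProd _ fun i _ => fin_node P b n g N hn hg hgn hN ha t ht' i
  have h3 := h1.add h2
  rw [zero_add] at h3
  refine h3.congr fun q => ?_
  ring

/-- From the sum over the channels to the hypothesis of the asymptotic theorem: `X q` is the invariant
(for generic `q`), `s` takes care of the framing. -/
theorem lim_of_mixT (P : Fin (m + 1) → Bool) (b : Fin (m + 1) → ℤ)
    (hP : ∀ j : Fin m, ¬ (P (Tr.par j) = true ∧ P j.succ = true))
    (hb : ∀ i, P i = false → (2 : ℤ) ∣ b i - sn P i) (s : ℤ) (n g N : ℕ) (hn : 2 ≤ n)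
    (hg : 1 ≤ g) (hgn : g < n) (hN : n ≤ N) {X : ℂ → ℂ}
    (hX : ∀ a, IsA n N a → ∀ q, Gen q n N → X q = ka q n N ^ s *
      mixT n q N a (Tr.par (m := m)) P b) :
    Tendsto X (𝓝[≠] (exp (Real.pi * I / (N + g))))
      (𝓝 (ka (q0 (N + g)) n N ^ s * ((∏ i, cst n g (N + g) (P i) (b i)) *
        ((Dg n g (N + g) : ℂ) / ((N + g : ℕ) : ℂ) ^ 2) ^ m *
        JG4 P (fun i => (b i : ℝ) / 2) n (min g (n - g)) (N + g)))) := by
  have e : exp (Real.pi * I / (N + g)) = q0 (N + g) := by
    unfold q0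
    push_cast
    rfl
  rw [e]
  obtain ⟨a, ha⟩ : ∃ a, IsH n N g (min g (n - g)) a := by
    rcases Nat.lt_or_ge n (2 * g) with h | h
    · exact ⟨-(N : ℤ), Or.inr ⟨by omega, h, rfl⟩⟩
    · exact ⟨(N : ℤ) + n, Or.inl ⟨by omega, h, rfl⟩⟩
  have h1 := root_limT P b hP hb n g N hn hg hgn hN ha
  have hq0 : q0 (N + g) ≠ 0 := exp_ne_zero _
  have h2 := (ka_cont hq0 n N s).tendsto.mono_left
    (nhdsWithin_le_nhds (s := {q0 (N + g)}ᶜ))
  refine (h2.mul h1).congr' ?_
  filter_upwards [Ev11_gen (q0 (N + g)) n N] with q hq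
  exact (hX a (isA ha) q hq).symm

end Pool.Agent.OR
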