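import Pool.Agent.H63.VC.Cross
import Pool.Agent.H63.VC.EndB
import Pool.Agent.H63.VC.Riem
import Pool.Agent.H63.VC.SlowL
import Pool.Agent.H63.VC.SlowU
import Pool.Agent.H63.VC11.Brac11
import Pool.Agent.H63.VC12.Path12
import Pool.Agent.H63.VC4.Checks
import Pool.Agent.H63.VC4.GeoDefs
import Pool.Agent.H63.VC4.KBN
import Pool.Agent.H63.VC4.UpperN
import Pool.Agent.H63.VC6.LocU
import Pool.Agent.H63.VC6.SlotU
import Pool.Agent.S4.B.LE
import Pool.Agent.S4.B.TwS
import Pool.Agent.S4.R.RA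

/-!
# Families of functions of the channels with bounded coefficients

`Sp N x B F`: near `x` the function `F q` is a combination of the functions `B q k`, `k ≤ N`, on the
channels `j ≤ N`, with bounded coefficients. For the slot factors of antiparallel strands this is
`Pool.Agent.S4.RA`; `RS` is the class for parallel strands.
-/

set_option autoImplicit false

namespace Pool.Agent.OR

open Pool.Agent.H63.VC hiding ext
open Pool.Agent.H63.VC3 Pool.Agent.H63.VC7 Pool.Agent.H63.VC8 Pool.Agent.H63.VC11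
open Pool.Agent.H63.VC12 Pool.Agent.S4 Complex Filter Topology

variable {n N g : ℕ} {x : ℂ} {B B' : ℂ → ℕ → ℕ → ℂ} {F G : ℂ → ℕ → ℂ}

/-- Combinations of the functions `B q k`, `k ≤ N`, with bounded coefficients. -/
def Sp (N : ℕ) (x : ℂ) (B : ℂ → ℕ → ℕ → ℂ) (F : ℂ → ℕ → ℂ) : Prop :=
  ∃ c : ℂ → ℕ → ℂ, (∀ k, (fun q => c q k) =O[𝓝[≠] x] (fun _ => (1 : ℂ))) ∧
    ∀ᶠ q in 𝓝[≠] x, ∀ j ≤ N, F q j = ∑ k ∈ Finset.range (N + 1), c q k * B q k j

theorem Sp.congr (h : Sp N x B F) (hG : ∀ᶠ q in 𝓝[≠] x, ∀ j ≤ N, G q j = F q j) :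
    Sp N x B G := by
  obtain ⟨c, hc, hF⟩ := h
  refine ⟨c, hc, ?_⟩
  filter_upwards [hF, hG] with q h1 h2 X hX
  rw [h2 X hX, h1 X hX]

theorem Sp.basis {k : ℕ} (hk : k ≤ N) : Sp N x B fun q j => B q k j := by
  refine ⟨fun _ i => if i = k then 1 else 0, fun i => ?_, Eventually.of_forall fun q j _ => ?_⟩
  · by_cases hi : i = k
    · simp only [if_pos hi]
      exact Asymptotics.isBigO_refl _ _
    · simp only [if_neg hi]
      exact Asymptotics.isBigO_zero _ _
  · rw [Finset.sum_eq_single_of_mem k (Finset.mem_range.2 (by omega))]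
    · simp
    · intro i _ hi
      simp [hi]

theorem Sp.zero : Sp N x B fun _ _ => 0 :=
  ⟨fun _ _ => 0, fun _ => Asymptotics.isBigO_zero _ _, Eventually.of_forall fun q j _ => by simp⟩

theorem Sp.add (h : Sp N x B F) (h' : Sp N x B G) : Sp N x B fun q X => F q X + G q X := by
  obtain ⟨c, hc, hF⟩ := h
  obtain ⟨d, hd, hG⟩ := h'
  refine ⟨fun q t => c q t + d q t, fun t => (hc t).add (hd t), ?_⟩
  filter_upwards [hF, hG] with q h1 h2 X hX
  rw [h1 X hX, h2 X hX, ← Finset.sum_add_distrib]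
  exact Finset.sum_congr rfl fun t _ => (add_mul _ _ _).symm

theorem Sp.smul {a : ℂ → ℂ} (ha : a =O[𝓝[≠] x] (fun _ => (1 : ℂ))) (h : Sp N x B F) :
    Sp N x B fun q X => a q * F q X := by
  obtain ⟨c, hc, hF⟩ := h
  refine ⟨fun q t => a q * c q t, fun t => R_RA_bmul ha (hc t), ?_⟩
  filter_upwards [hF] with q h1 X hX
  rw [h1 X hX, Finset.mul_sum]
  exact Finset.sum_congr rfl fun t _ => (mul_assoc _ _ _).symm

theorem Sp.sum {ι : Type*} (s : Finset ι) (c : ι → ℂ → ℂ) (F : ι → ℂ → ℕ → ℂ)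
    (hc : ∀ i ∈ s, (fun q => c i q) =O[𝓝[≠] x] (fun _ => (1 : ℂ)))
    (hF : ∀ i ∈ s, Sp N x B (F i)) : Sp N x B fun q X => ∑ i ∈ s, c i q * F i q X := by
  classical
  induction s using Finset.induction_on with
  | empty =>
    simp only [Finset.sum_empty]
    exact Sp.zero
  | insert i s hi ih =>
    have ih' := ih (fun j hj => hc j (Finset.mem_insert_of_mem hj))
      (fun j hj => hF j (Finset.mem_insert_of_mem hj))
    refine (((hF i (Finset.mem_insert_self i s)).smul
      (hc i (Finset.mem_insert_self i s))).add ih').congr (Eventually.of_forall fun q X _ => ?_)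
    exact Finset.sum_insert hi

theorem Sp.trans (hB : ∀ k ≤ N, Sp N x B' fun q j => B q k j) (h : Sp N x B F) :
    Sp N x B' F := by
  obtain ⟨c, hc, hF⟩ := h
  refine (Sp.sum (Finset.range (N + 1)) (fun k q => c q k) (fun k q j => B q k j)
    (fun k _ => hc k) (fun k hk => hB k (Nat.lt_succ_iff.1 (Finset.mem_range.1 hk)))).congr ?_
  filter_upwards [hF] with q h1 j hj
  exact h1 j hj

theorem RA_Sp : RA n N x F ↔ Sp N x (fun q t X => pa q n t X) F := Iff.rfl

/-- The class for parallel strands. -/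
def RS (N : ℕ) (x : ℂ) (F : ℂ → ℕ → ℂ) : Prop := Sp N x (fun q k j => LE q k j) F

theorem qb_cont (hx : x ≠ 0) (m k : ℕ) : ContinuousAt (fun q => qb q m k) x := by
  induction m generalizing k with
  | zero =>
    cases k with
    | zero => exact continuousAt_const
    | succ k => exact continuousAt_const
  | succ m ih =>
    cases k with
    | zero => exact continuousAt_const
    | succ k =>
      exact ((continuousAt_zpow₀ x _ (Or.inl hx)).mul (ih (k + 1))).add
        ((continuousAt_zpow₀ x _ (Or.inl hx)).mul (ih k))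

theorem LE_cont (hx : x ≠ 0) (k j : ℕ) : ContinuousAt (fun q => LE q k j) x :=
  (qb_cont hx j k).mul (qb_cont hx (j + k) k)

/-- The values are bounded. -/
theorem RS.bdd (hx : x ≠ 0) (h : RS N x F) {X : ℕ} (hX : X ≤ N) :
    (fun q => F q X) =O[𝓝[≠] x] (fun _ => (1 : ℂ)) := by
  obtain ⟨c, hc, hF⟩ := h
  have h1 : (fun q => ∑ t ∈ Finset.range (N + 1), c q t * LE q t X) =O[𝓝[≠] x]
      (fun _ => (1 : ℂ)) := by
    refine Asymptotics.IsBigO.fun_sum fun t _ => ?_
    exact R_RA_bmul (hc t) (R_RA_cb (LE_cont hx t X))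
  refine h1.congr' ?_ EventuallyEq.rfl
  filter_upwards [hF] with q h2
  exact (h2 X hX).symm

theorem LE_zero (q : ℂ) (j : ℕ) : LE q 0 j = 1 := by
  show qb q j 0 * qb q (j + 0) 0 = 1
  rw [qb_zero_right, qb_zero_right, mul_one]

theorem RS.one : RS N x fun _ _ => 1 := by
  refine (Sp.basis (B := fun q k j => LE q k j) (k := 0) (Nat.zero_le N)).congr
    (Eventually.of_forall fun q j _ => ?_)
  exact (LE_zero q j).symm

/-- The function which multiplies the basis functions. -/
noncomputable def ZS (q : ℂ) (j : ℕ) : ℂ := br q j * br q ((j : ℤ) + 1)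

theorem ZS_cont (hx : x ≠ 0) (j : ℕ) : ContinuousAt (fun q => ZS q j) x :=
  (R_RA_br_cont x hx _).mul (R_RA_br_cont x hx _)

private theorem br_neg (q : ℂ) (a : ℤ) : br q (-a) = -br q a := by
  unfold br
  rw [neg_neg]
  ring

theorem ZS_LE {q : ℂ} (hg : Gen q n N) {k j : ℕ} (hk : k + 1 ≤ N) (hj : j ≤ N) :
    ZS q j * LE q k j = ZS q k * LE q k j + br q ((k : ℤ) + 1) ^ 2 * LE q (k + 1) j := by
  have h := LE_mul hg 0 hk hj
  have e1 : br q ((0 : ℤ) - 1 - j) = -br q ((j : ℤ) + 1) := by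
    rw [← br_neg]
    congr 1
    ring
  have e2 : br q ((0 : ℤ) - 1 - k) = -br q ((k : ℤ) + 1) := by
    rw [← br_neg]
    congr 1
    ring
  rw [e1, e2, zero_add, zero_add] at h
  unfold ZS
  linear_combination -h

theorem ZS_LE_last {q : ℂ} {j : ℕ} (hj : j ≤ N) : ZS q j * LE q N j = ZS q N * LE q N j := by
  rcases Nat.lt_or_ge j N with h | h
  · rw [LE_lt h, mul_zero, mul_zero]
  · rw [show j = N by omega]

theorem RS.mulZ (hx : x ≠ 0) (h : RS N x F) : RS N x fun q j => ZS q j * F q j := by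
  obtain ⟨c, hc, hF⟩ := h
  have h1 : ∀ k ≤ N, RS N x fun q j => ZS q j * LE q k j := by
    intro k hk
    rcases Nat.lt_or_ge k N with h | h
    · have e1 : RS N x fun q j => ZS q k * LE q k j :=
        (Sp.basis hk).smul (R_RA_cb (ZS_cont hx k))
      have e2 : RS N x fun q j => br q ((k : ℤ) + 1) ^ 2 * LE q (k + 1) j :=
        (Sp.basis (k := k + 1) (by omega)).smul (R_RA_cb ((R_RA_br_cont x hx _).pow 2))
      refine (e1.add e2).congr ?_
      filter_upwards [Ev11_gen x 2 N] with q hq j hj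
      exact ZS_LE hq (by omega) hj
    · obtain rfl : k = N := by omega
      refine ((Sp.basis (B := fun q k j => LE q k j) le_rfl).smul
        (R_RA_cb (ZS_cont hx k))).congr (Eventually.of_forall fun q j hj => ?_)
      exact ZS_LE_last hj
  refine (Sp.sum (Finset.range (N + 1)) (fun k q => c q k) (fun k q j => ZS q j * LE q k j)
    (fun k _ => hc k) (fun k hk => h1 k (Nat.lt_succ_iff.1 (Finset.mem_range.1 hk)))).congr ?_
  filter_upwards [hF] with q h2 j hj
  rw [h2 j hj, Finset.mul_sum]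
  exact Finset.sum_congr rfl fun t _ => by ring

theorem RS.mulLE (hg : 1 ≤ g) (h : RS N (q0 (N + g)) F) {s : ℕ} (hs : s ≤ N) :
    RS N (q0 (N + g)) fun q j => LE q s j * F q j := by
  have hx := R_RA_q0_ne (N + g)
  induction s with
  | zero =>
    refine h.congr (Eventually.of_forall fun q j _ => ?_)
    rw [LE_zero, one_mul]
  | succ s ih =>
    have ih' := ih (by omega)
    have h1 : RS N (q0 (N + g)) fun q j => (-ZS q s) * (LE q s j * F q j) :=
      ih'.smul (R_RA_cb (ZS_cont hx s).neg)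
    have hb : (fun q => (br q ((s : ℤ) + 1) ^ 2)⁻¹) =O[𝓝[≠] (q0 (N + g))]
        (fun _ => (1 : ℂ)) := by
      have h := R_RA_br_q0 (N + g) (s + 1) (by omega) (by omega)
      push_cast at h
      exact R_RA_cb (((R_RA_br_cont _ hx _).pow 2).inv₀ (pow_ne_zero 2 h))
    refine (((ih'.mulZ hx).add h1).smul hb).congr ?_
    filter_upwards [Ev11_gen (q0 (N + g)) 2 N] with q hq j hj
    have h3 := ZS_LE hq (k := s) hs hj
    have h4 : br q ((s : ℤ) + 1) ≠ 0 := by
      have h5 := hq.2 (s + 1) (by omega) (by omega)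
      push_cast at h5
      exact h5
    rw [eq_comm, inv_mul_eq_iff_eq_mul₀ (pow_ne_zero 2 h4)]
    linear_combination F q j * h3

/-- Products. -/
theorem RS.mul (hg : 1 ≤ g) (h : RS N (q0 (N + g)) F) (h' : RS N (q0 (N + g)) G) :
    RS N (q0 (N + g)) fun q j => F q j * G q j := by
  obtain ⟨c, hc, hF⟩ := h
  refine (Sp.sum (Finset.range (N + 1)) (fun k q => c q k) (fun k q j => LE q k j * G q j)
    (fun k _ => hc k) (fun k hk => h'.mulLE hg
      (Nat.lt_succ_iff.1 (Finset.mem_range.1 hk)))).congr ?_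
  filter_upwards [hF] with q h2 X hX
  rw [h2 X hX, Finset.sum_mul]
  exact Finset.sum_congr rfl fun t _ => by ring

/-- A half twist. -/
theorem RS.tw1 (hx : x ≠ 0) {ε : ℤ} (hε : ε = 1 ∨ ε = -1) : RS N x fun q j => twS q j ^ ε := by
  refine ⟨fun q i => (-1) ^ i * q ^ (ε * ((0 : ℕ) + 1) * i) * qb q i 0, fun i => ?_, ?_⟩
  · exact R_RA_cb ((continuousAt_const.mul (continuousAt_zpow₀ x _ (Or.inl hx))).mul
      (qb_cont hx i 0))
  · filter_upwards [Ev11_gen x 2 N] with q hq j hj
    have h := twS_LE hq hε (Nat.zero_le N) hj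
    rw [LE_zero, mul_one] at h
    exact h

theorem RS.pow (hg : 1 ≤ g) (h : RS N (q0 (N + g)) F) (k : ℕ) :
    RS N (q0 (N + g)) fun q j => F q j ^ k := by
  induction k with
  | zero =>
    simp only [pow_zero]
    exact RS.one
  | succ k ih =>
    refine (ih.mul hg h).congr (Eventually.of_forall fun q X _ => ?_)
    exact pow_succ _ _

/-- Half twists. -/
theorem RS.tw (hg : 1 ≤ g) (h : RS N (q0 (N + g)) F) (b : ℤ) :
    RS N (q0 (N + g)) fun q j => twS q j ^ b * F q j := by
  have hx := R_RA_q0_ne (N + g)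
  refine RS.mul hg ?_ h
  obtain ⟨k, rfl | rfl⟩ := Int.eq_nat_or_neg b
  · refine ((RS.tw1 hx (Or.inl rfl)).pow hg k).congr (Eventually.of_forall fun q X _ => ?_)
    rw [zpow_one, zpow_natCast]
  · refine ((RS.tw1 hx (Or.inr rfl)).pow hg k).congr (Eventually.of_forall fun q X _ => ?_)
    rw [← zpow_natCast, ← zpow_mul]
    congr 1
    ring

end Pool.Agent.OR
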